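import Pool.Agent.H41.GT.Letter

/-!
Counting the graded matrices of determinant one modulo `X ^ r`.
-/

namespace H41GT

open Polynomial Matrix

variable {E : Type*} [Field E] {q : ℕ}

/-- The polynomial matrix with the coefficients `a 0, ..., a (r - 1)`. -/
noncomputable def io (q : ℕ) {r : ℕ} (a : Fin r → E) : Matrix (Fin 3) (Fin 3) E[X] :=
  ∑ n : Fin r, mon q (a n) n

/-- The coefficient sequences of determinant one modulo `X ^ r`. -/
def Dr (E : Type*) [Field E] (q r : ℕ) : Set (Fin r → E) :=
  {a | (X ^ r : E[X]) ∣ (io q a).det - 1}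

theorem io_coeff {r : ℕ} (a : Fin r → E) (k : Fin r) (i j : Fin 3) :
    (io q a i j).coeff k = el q (a k) k i j := by
  simp only [io, Matrix.sum_apply, finsetSum_coeff]
  rw [Finset.sum_eq_single k]
  · simp [mon]
  · intro n _ hn
    simp only [mon, coeff_C_mul, coeff_X_pow]
    rw [if_neg (fun h => hn (Fin.ext h.symm)), mul_zero]
  · intro h
    exact absurd (Finset.mem_univ _) h

theorem io_snoc {r : ℕ} (a : Fin r → E) (x : E) :
    io q (Fin.snoc a x : Fin (r + 1) → E) = io q a + mon q x r := by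
  simp only [io, Fin.sum_univ_castSucc, Fin.snoc_castSucc, Fin.snoc_last, Fin.val_castSucc,
    Fin.val_last]

/-- The coefficient of a determinant. -/
theorem det_add_coeff (A : Matrix (Fin 3) (Fin 3) E[X]) (x : E) (r : ℕ) (hr : 1 ≤ r) :
    ((A + mon q x r).det).coeff r = A.det.coeff r +
      (((evalRingHom (0 : E)).mapMatrix A).adjugate * el q x r).trace := by
  obtain ⟨B, hB⟩ : ∃ B : Matrix (Fin 3) (Fin 3) E, B = el q x r := ⟨_, rfl⟩
  have hm : mon q x r = Matrix.of fun i j => C (B i j) * X ^ r := by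
    rw [hB]; rfl
  rw [hm, ← hB]
  have key : (A + Matrix.of fun i j => C (B i j) * X ^ r).det = A.det +
      X ^ r * (A.adjugate * (C : E →+* E[X]).mapMatrix B).trace +
      X ^ (2 * r) * ((((C : E →+* E[X]).mapMatrix B).adjugate * A).trace +
        X ^ r * ((C : E →+* E[X]).mapMatrix B).det) := by
    rw [Matrix.det_fin_three, Matrix.det_fin_three, Matrix.det_fin_three,
      Matrix.adjugate_fin_three, Matrix.adjugate_fin_three, Matrix.trace_fin_three,
      Matrix.trace_fin_three]
    simp only [Matrix.mul_apply, Fin.sum_univ_three, Matrix.add_apply, Matrix.of_apply,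
      Matrix.cons_val_zero, Matrix.cons_val_one, Matrix.cons_val, RingHom.mapMatrix_apply,
      Matrix.map_apply]
    rw [show (X : E[X]) ^ (2 * r) = X ^ r * X ^ r by ring]
    ring
  rw [key, coeff_add, coeff_add, coeff_X_pow_mul', coeff_X_pow_mul', if_pos le_rfl,
    if_neg (by omega), Nat.sub_self, add_zero, coeff_zero_eq_eval_zero]
  congr 1
  have : eval 0 (A.adjugate * (C : E →+* E[X]).mapMatrix B).trace =
      ((evalRingHom (0 : E)).mapMatrix (A.adjugate * (C : E →+* E[X]).mapMatrix B)).trace := by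
    rw [Matrix.trace_fin_three, Matrix.trace_fin_three]
    simp
  rw [this, map_mul, ← RingHom.map_adjugate]
  congr 2
  ext i j
  simp

/-- The number of solutions of a `q`-polynomial equation. -/
theorem sol_card [Fintype E] [DecidableEq E] (hq : 1 < q) (c0 c1 c2 t : E) (hc : c2 ≠ 0) :
    (Finset.univ.filter (fun x : E => c0 * x + c1 * x ^ q + c2 * x ^ q ^ 2 = t)).card
      ≤ q ^ 2 := by
  classical
  let p : E[X] := C c2 * X ^ q ^ 2 + (C c1 * X ^ q + C c0 * X - C t)
  have hlow : (C c1 * X ^ q + C c0 * X - C t : E[X]).natDegree ≤ q := by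
    refine (natDegree_sub_le _ _).trans (max_le ?_ ?_)
    · refine (natDegree_add_le _ _).trans (max_le ?_ ?_)
      · exact natDegree_C_mul_X_pow_le _ _
      · refine (natDegree_C_mul_le _ _).trans ?_
        rw [natDegree_X]; omega
    · rw [natDegree_C]; omega
  have hlt : q < q ^ 2 := by nlinarith
  have hp : p ≠ 0 := by
    intro hp0
    have := congrArg (fun r => coeff r (q ^ 2)) hp0
    simp only [p, coeff_add, coeff_C_mul_X_pow, coeff_zero, if_true] at this
    rw [coeff_eq_zero_of_natDegree_lt (hlow.trans_lt hlt), add_zero] at this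
    exact hc this
  have hdeg : p.natDegree ≤ q ^ 2 := by
    refine (natDegree_add_le _ _).trans (max_le ?_ ?_)
    · exact natDegree_C_mul_X_pow_le _ _
    · exact hlow.trans hlt.le
  have hsubset : (Finset.univ.filter (fun x : E => c0 * x + c1 * x ^ q + c2 * x ^ q ^ 2 = t))
      ⊆ p.roots.toFinset := by
    intro x hx
    have hx' := (Finset.mem_filter.mp hx).2
    rw [Multiset.mem_toFinset, mem_roots hp, IsRoot.def]
    simp only [p, eval_sub, eval_add, eval_mul, eval_pow, eval_X, eval_C]
    linear_combination hx'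
  calc _ ≤ p.roots.toFinset.card := Finset.card_le_card hsubset
    _ ≤ Multiset.card p.roots := Multiset.toFinset_card_le _
    _ ≤ p.natDegree := card_roots' p
    _ ≤ q ^ 2 := hdeg

theorem det_dvd_sub {R : Type*} [CommRing R] (A B : Matrix (Fin 3) (Fin 3) R) (d : R)
    (h : ∀ i j, d ∣ A i j - B i j) : d ∣ A.det - B.det := by
  have e : (Ideal.Quotient.mk (Ideal.span {d})).mapMatrix A =
      (Ideal.Quotient.mk (Ideal.span {d})).mapMatrix B := by
    ext i j
    exact Ideal.Quotient.eq.mpr (Ideal.mem_span_singleton.mpr (h i j))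
  rw [← Ideal.mem_span_singleton, ← Ideal.Quotient.eq, RingHom.map_det, RingHom.map_det, e]

theorem Dr_init {r : ℕ} (a : Fin r → E) (x : E)
    (h : (Fin.snoc a x : Fin (r + 1) → E) ∈ Dr E q (r + 1)) : a ∈ Dr E q r := by
  have h1 : (X ^ (r + 1) : E[X]) ∣ (io q a + mon q x r).det - 1 := by
    rw [← io_snoc]
    exact h
  have h2 : (X ^ r : E[X]) ∣ (io q a + mon q x r).det - (io q a).det := by
    apply det_dvd_sub
    intro i j
    rw [Matrix.add_apply, add_sub_cancel_left]
    simp only [mon]
    exact dvd_mul_left _ _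
  have h3 : (X ^ r : E[X]) ∣ (io q a + mon q x r).det - 1 :=
    (pow_dvd_pow X (Nat.le_succ r)).trans h1
  have h4 := dvd_sub h3 h2
  rw [sub_sub_sub_cancel_left] at h4
  rw [Dr, Set.mem_ofPred_eq]
  exact h4

theorem io_zero {r : ℕ} (a : Fin (r + 1) → E) :
    (evalRingHom (0 : E)).mapMatrix (io q a) = el q (a 0) 0 := by
  ext i j
  rw [RingHom.mapMatrix_apply, Matrix.map_apply, coe_evalRingHom, ← coeff_zero_eq_eval_zero]
  exact io_coeff a 0 i j

theorem Dr_zero_nrm {r : ℕ} (a : Fin (r + 1) → E) (h : a ∈ Dr E q (r + 1)) :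
    a 0 * a 0 ^ q * a 0 ^ q ^ 2 = 1 := by
  have h1 : (X ^ (r + 1) : E[X]) ∣ (io q a).det - 1 := h
  have h2 : ((io q a).det - 1).coeff 0 = 0 := (X_pow_dvd_iff.mp h1) 0 (by omega)
  rw [coeff_sub, coeff_one_zero, sub_eq_zero, coeff_zero_eq_eval_zero] at h2
  rw [← el_det (a 0) 0, ← io_zero a, ← RingHom.map_det]
  exact h2

theorem trace_el (b x : E) (r : ℕ) (hr : 3 ∣ r) :
    ((el q b 0).adjugate * el q x r).trace =
      (b ^ q * b ^ q ^ 2) * x + (b * b ^ q ^ 2) * x ^ q + (b * b ^ q) * x ^ q ^ 2 := by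
  have h0 : (0 + r) % 3 = 0 := by omega
  have h1 : (1 + r) % 3 = 1 := by omega
  have h2 : (2 + r) % 3 = 2 := by omega
  have e1 : el q b 0 = !![b, 0, 0; 0, b ^ q, 0; 0, 0, b ^ q ^ 2] := by
    ext i j
    fin_cases i <;> fin_cases j <;> simp [el]
  have e2 : el q x r = !![x, 0, 0; 0, x ^ q, 0; 0, 0, x ^ q ^ 2] := by
    ext i j
    fin_cases i <;> fin_cases j <;> simp [el, h1, h2, Nat.mod_eq_zero_of_dvd hr]
  rw [e1, e2, Matrix.adjugate_fin_three, Matrix.trace_fin_three]
  simp only [Matrix.mul_apply, Fin.sum_univ_three, Matrix.of_apply,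
      Matrix.cons_val_zero, Matrix.cons_val_one, Matrix.cons_val]
  ring

theorem fibre_card [Fintype E] [DecidableEq E] (hq : 1 < q) (hcard : Fintype.card E = q ^ 3)
    {r : ℕ} (a : Fin (r + 1) → E) (ha : a ∈ Dr E q (r + 1))
    [DecidablePred fun x : E => (Fin.snoc a x : Fin (r + 1 + 1) → E) ∈ Dr E q (r + 1 + 1)] :
    (Finset.univ.filter (fun x : E => (Fin.snoc a x : Fin (r + 1 + 1) → E) ∈
      Dr E q (r + 1 + 1))).card ≤ q ^ (if 3 ∣ (r + 1) then 2 else 3) := by
  split_ifs with h3
  · have hn := Dr_zero_nrm a ha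
    have hb : a 0 ≠ 0 := by
      intro h; rw [h] at hn; simp at hn
    refine le_trans (Finset.card_le_card ?_) (sol_card hq (a 0 ^ q * a 0 ^ q ^ 2)
      (a 0 * a 0 ^ q ^ 2) (a 0 * a 0 ^ q) (-(io q a).det.coeff (r + 1))
      (mul_ne_zero hb (pow_ne_zero _ hb)))
    intro x hx
    have hx' : (X ^ (r + 1 + 1) : E[X]) ∣ (io q (Fin.snoc a x : Fin (r + 1 + 1) → E)).det - 1 :=
      (Finset.mem_filter.mp hx).2
    rw [io_snoc] at hx'
    have h4 := (X_pow_dvd_iff.mp hx') (r + 1) (by omega)
    rw [coeff_sub, det_add_coeff _ _ _ (by omega), io_zero, trace_el _ _ _ h3, coeff_one,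
      if_neg (by omega), sub_zero] at h4
    refine Finset.mem_filter.mpr ⟨Finset.mem_univ _, ?_⟩
    linear_combination h4
  · calc _ ≤ (Finset.univ : Finset E).card := Finset.card_filter_le _ _
      _ = q ^ 3 := by rw [Finset.card_univ, hcard]

theorem Dr_card [Fintype E] (hq : 1 < q) (hcard : Fintype.card E = q ^ 3) (r : ℕ) :
    Nat.card (Dr E q (r + 1)) ≤ (q ^ 2 + q + 1) * q ^ (3 * r - r / 3) := by
  classical
  have hconv : ∀ r, Nat.card (Dr E q r) =
      (Finset.univ.filter (fun a : Fin r → E => a ∈ Dr E q r)).card := by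
    intro r
    rw [Nat.card_eq_fintype_card, Fintype.card_subtype]
  induction r with
  | zero =>
    rw [hconv]
    have : (Finset.univ.filter (fun a : Fin (0 + 1) → E => a ∈ Dr E q (0 + 1))).card ≤
        (nthRoots (q ^ 2 + q + 1) (1 : E)).toFinset.card := by
      apply Finset.card_le_card_of_injOn (fun a => a 0)
      · intro a ha
        have ha' := Dr_zero_nrm a (Finset.mem_filter.mp ha).2
        simp only [Finset.mem_coe, Multiset.mem_toFinset]
        rw [mem_nthRoots (by omega), ← ha']
        ring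
      · intro a _ b _ hab
        funext i
        have : i = 0 := by
          apply Fin.ext
          have := i.2
          omega
        rw [this]
        exact hab
    calc _ ≤ (nthRoots (q ^ 2 + q + 1) (1 : E)).toFinset.card := this
      _ ≤ Multiset.card (nthRoots (q ^ 2 + q + 1) (1 : E)) := Multiset.toFinset_card_le _
      _ ≤ q ^ 2 + q + 1 := card_nthRoots _ _
      _ = _ := by simp
  | succ r ih =>
    rw [hconv] at ih ⊢
    have h1 : (Finset.univ.filter (fun a : Fin (r + 1 + 1) → E => a ∈ Dr E q (r + 1 + 1))).card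
        ≤ q ^ (if 3 ∣ (r + 1) then 2 else 3) *
          (Finset.univ.filter (fun a : Fin (r + 1) → E => a ∈ Dr E q (r + 1))).card := by
      apply Finset.card_le_mul_card_image_of_maps_to
        (f := fun a : Fin (r + 1 + 1) → E => (Fin.init a : Fin (r + 1) → E))
      · intro a ha
        have ha' := (Finset.mem_filter.mp ha).2
        rw [← Fin.snoc_init_self a] at ha'
        exact Finset.mem_filter.mpr ⟨Finset.mem_univ _, Dr_init _ _ ha'⟩
      · intro b hb
        have hb' := (Finset.mem_filter.mp hb).2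
        refine le_trans ?_ (fibre_card hq hcard b hb')
        apply Finset.card_le_card_of_injOn (fun a => a (Fin.last (r + 1)))
        · intro a ha
          have ha1 := Finset.mem_filter.mp ha
          have ha2 := (Finset.mem_filter.mp ha1.1).2
          rw [← Fin.snoc_init_self a, ha1.2] at ha2
          exact Finset.mem_coe.mpr (Finset.mem_filter.mpr ⟨Finset.mem_univ _, ha2⟩)
        · intro a ha a' ha' haa
          have h2 := (Finset.mem_filter.mp ha).2
          have h3 := (Finset.mem_filter.mp ha').2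
          rw [← Fin.snoc_init_self a, ← Fin.snoc_init_self a', h2, h3]
          simp only at haa
          rw [haa]
    calc _ ≤ _ := h1
      _ ≤ q ^ (if 3 ∣ (r + 1) then 2 else 3) * ((q ^ 2 + q + 1) * q ^ (3 * r - r / 3)) :=
        Nat.mul_le_mul_left _ ih
      _ = (q ^ 2 + q + 1) * q ^ ((if 3 ∣ (r + 1) then 2 else 3) + (3 * r - r / 3)) := by
        rw [pow_add]; ring
      _ = _ := by
        congr 2
        split_ifs <;> omega

end H41GT
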