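import Pool.Agent.H41.GT.Main
import Pool.Agent.H41.GT.Count

/-!
The finite groups.
-/

namespace H41GT

open Polynomial Matrix

variable {E : Type*} [Field E] {q : ℕ}

/-- The truncated polynomial ring. -/
abbrev Rr (E : Type*) [Field E] (r : ℕ) := E[X] ⧸ Ideal.span {(X ^ r : E[X])}

/-- The reduction. -/
noncomputable abbrev pr (E : Type*) [Field E] (r : ℕ) : E[X] →+* Rr E r :=
  Ideal.Quotient.mk (Ideal.span {(X ^ r : E[X])})

theorem pr_eq {r : ℕ} {a b : E[X]} : pr E r a = pr E r b ↔ (X ^ r : E[X]) ∣ a - b := by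
  rw [Ideal.Quotient.eq, Ideal.mem_span_singleton]

/-- The inverse of `1 - X ^ 3`. -/
noncomputable def gi (E : Type*) [Field E] (r : ℕ) : E[X] := ∑ k ∈ Finset.range r, (X ^ 3) ^ k

theorem gi_mul (r : ℕ) : (1 - X ^ 3) * gi E r = 1 - (X ^ 3) ^ r := by
  rw [gi, mul_neg_geom_sum]

theorem pr_gi (r : ℕ) : pr E r ((1 - X ^ 3) * gi E r) = 1 := by
  rw [gi_mul, ← map_one (pr E r), pr_eq]
  refine ⟨-X ^ (2 * r), ?_⟩
  ring

/-- The letter in the group. -/
noncomputable def sU (h : Fr E q) (r : ℕ) (ρ : {ρ : E // Good q ρ}) :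
    (Matrix (Fin 3) (Fin 3) (Rr E r))ˣ where
  val := (pr E r).mapMatrix (sm q ρ.1)
  inv := (pr E r).mapMatrix (gi E r • tm q ρ.1)
  val_inv := by
    rw [← map_mul, Matrix.mul_smul, sm_tm_self h _ ρ.2, smul_smul, mul_comm]
    ext i j
    rw [RingHom.mapMatrix_apply, Matrix.map_apply, Matrix.smul_apply, smul_eq_mul, map_mul,
      pr_gi, one_mul]
    by_cases hij : i = j
    · subst hij; simp
    · simp [hij]
  inv_val := by
    rw [← map_mul, Matrix.smul_mul, tm_sm_self h _ ρ.2, smul_smul, mul_comm]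
    ext i j
    rw [RingHom.mapMatrix_apply, Matrix.map_apply, Matrix.smul_apply, smul_eq_mul, map_mul,
      pr_gi, one_mul]
    by_cases hij : i = j
    · subst hij; simp
    · simp [hij]

/-- The group generated by the quotients of letters. -/
noncomputable def HH (h : Fr E q) (r : ℕ) : Subgroup (Matrix (Fin 3) (Fin 3) (Rr E r))ˣ :=
  Subgroup.closure {g | ∃ i j, g = sU h r i * (sU h r j)⁻¹}

theorem gr_gi (h : Fr E q) (r : ℕ) : Gr q (gi E r • (1 : Matrix (Fin 3) (Fin 3) E[X])) := by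
  unfold gi
  induction r with
  | zero =>
    rw [Finset.sum_range_zero, zero_smul]
    exact gr_zero h
  | succ r ih =>
    rw [Finset.sum_range_succ, add_smul]
    refine ih.add h ?_
    rw [← pow_mul, ← mon_X3 (q := q)]
    exact mon_gr h _ _

theorem HH_gr (h : Fr E q) (r : ℕ) (g : (Matrix (Fin 3) (Fin 3) (Rr E r))ˣ) (hg : g ∈ HH h r) :
    ∃ B, Gr q B ∧ (pr E r).mapMatrix B = g.val := by
  have hgen : ∀ i j, ∃ B, Gr q B ∧ (pr E r).mapMatrix B = (sU h r i * (sU h r j)⁻¹).val := by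
    intro i j
    refine ⟨sm q i.1 * (gi E r • tm q j.1), ?_, ?_⟩
    · refine (sm_gr h _).mul h ?_
      have : gi E r • tm q j.1 = (gi E r • (1 : Matrix (Fin 3) (Fin 3) E[X])) * tm q j.1 := by
        rw [Matrix.smul_mul, Matrix.one_mul]
      rw [this]
      exact (gr_gi h r).mul h (tm_gr h _)
    · rw [map_mul]
      rfl
  unfold HH at hg
  induction hg using Subgroup.closure_induction'' with
  | mem x hx =>
    obtain ⟨i, j, rfl⟩ := hx
    exact hgen i j
  | inv_mem x hx =>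
    obtain ⟨i, j, rfl⟩ := hx
    rw [_root_.mul_inv_rev, inv_inv]
    exact hgen j i
  | one => exact ⟨1, gr_one h, map_one _⟩
  | mul x y _ _ hx hy =>
    obtain ⟨B, hB, hB'⟩ := hx
    obtain ⟨B', hB1, hB1'⟩ := hy
    exact ⟨B * B', hB.mul h hB1, by rw [map_mul, hB', hB1']; rfl⟩

theorem HH_det (h : Fr E q) (r : ℕ) (g : (Matrix (Fin 3) (Fin 3) (Rr E r))ˣ) (hg : g ∈ HH h r) :
    g.val.det = 1 := by
  have hle : HH h r ≤ (Units.map (Matrix.detMonoidHom (n := Fin 3) (R := Rr E r))).ker := by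
    rw [HH, Subgroup.closure_le]
    rintro _ ⟨i, j, rfl⟩
    rw [SetLike.mem_coe, MonoidHom.mem_ker, map_mul, map_inv, mul_inv_eq_one]
    apply Units.ext
    have : ∀ i, ((sU h r i).val.det) = pr E r (1 - X ^ 3) := by
      intro i
      change ((pr E r).mapMatrix (sm q i.1)).det = _
      rw [← RingHom.map_det, sm_det _ i.2]
    change (sU h r i).val.det = (sU h r j).val.det
    rw [this, this]
  have := hle hg
  rw [MonoidHom.mem_ker] at this
  exact congrArg Units.val this

/-- The order of the group. -/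
theorem HH_card [Finite E] (h : Fr E q) (hq : 1 < q) (hcard : Nat.card E = q ^ 3) (r : ℕ) :
    Finite (HH h (r + 1)) ∧ Nat.card (HH h (r + 1)) ≤ (q ^ 2 + q + 1) * q ^ (3 * r - r / 3) := by
  classical
  have : Fintype E := Fintype.ofFinite E
  have hB : ∀ g : HH h (r + 1), ∃ a : Fin (r + 1) → E,
      (pr E (r + 1)).mapMatrix (io q a) = g.1.val := by
    intro g
    obtain ⟨B, hB, hBg⟩ := HH_gr h (r + 1) g.1 g.2
    choose a ha using hB
    refine ⟨fun k => a k, ?_⟩
    rw [← hBg]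
    ext i j
    rw [RingHom.mapMatrix_apply, Matrix.map_apply, RingHom.mapMatrix_apply, Matrix.map_apply,
      pr_eq, X_pow_dvd_iff]
    intro d hd
    rw [coeff_sub, ha, io_coeff (fun k : Fin (r + 1) => a k) ⟨d, hd⟩ i j, sub_self]
  choose f hf using hB
  have hinj : Function.Injective (fun g : HH h (r + 1) => (⟨f g, by
      have h1 := HH_det h (r + 1) g.1 g.2
      rw [← hf g, ← RingHom.map_det, ← map_one (pr E (r + 1)), pr_eq] at h1
      exact h1⟩ : Dr E q (r + 1))) := by
    intro g g' hgg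
    have h1 : f g = f g' := congrArg Subtype.val hgg
    apply Subtype.ext
    apply Units.ext
    rw [← hf g, ← hf g', h1]
  have hfin : Finite (Dr E q (r + 1)) := inferInstance
  refine ⟨Finite.of_injective _ hinj, ?_⟩
  refine (Nat.card_le_card_of_injective _ hinj).trans ?_
  apply Dr_card hq
  rw [← hcard, Nat.card_eq_fintype_card]

theorem map_smul_one {R S : Type*} [CommRing R] [CommRing S] (f : R →+* S) (z : R) :
    f.mapMatrix (z • (1 : Matrix (Fin 3) (Fin 3) R)) = (f z) • 1 := by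
  ext i j
  rw [RingHom.mapMatrix_apply, Matrix.map_apply, Matrix.smul_apply, smul_eq_mul, map_mul,
    Matrix.smul_apply, smul_eq_mul]
  by_cases hij : i = j
  · subst hij; simp
  · simp [hij]

theorem comm_scalar {S : Type*} [CommRing S] (z : S) (A : Matrix (Fin 3) (Fin 3) S) :
    A * (z • (1 : Matrix (Fin 3) (Fin 3) S)) = (z • (1 : Matrix (Fin 3) (Fin 3) S)) * A := by
  rw [Matrix.mul_smul, Matrix.smul_mul, Matrix.mul_one, Matrix.one_mul]

/-- The word `∏ s (a i) * s (b i)⁻¹`. -/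
def wg {G ι : Type*} [Group G] (s : ι → G) (a b : ℕ → ι) : ℕ → G
  | 0 => 1
  | n + 1 => wg s a b n * (s (a n) * (s (b n))⁻¹)

theorem wg_sU (h : Fr E q) (r : ℕ) (a b : ℕ → {ρ : E // Good q ρ}) (n : ℕ) :
    (wg (sU h r) a b n).val * (pr E r).mapMatrix (((1 - X ^ 3) ^ n : E[X]) • 1) =
      (pr E r).mapMatrix (wp q (fun i => (a i).1) (fun i => (b i).1) n) := by
  induction n with
  | zero => simp [wg, wp]
  | succ n ih =>
    have e1 : (sU h r (b n))⁻¹.val * (pr E r).mapMatrix ((1 - X ^ 3 : E[X]) • 1) =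
        (pr E r).mapMatrix (tm q (b n).1) := by
      change (pr E r).mapMatrix (gi E r • tm q (b n).1) * _ = _
      rw [← map_mul, Matrix.smul_mul, Matrix.mul_smul, Matrix.mul_one, smul_smul, mul_comm]
      ext i j
      rw [RingHom.mapMatrix_apply, Matrix.map_apply, Matrix.smul_apply, smul_eq_mul, map_mul,
        pr_gi, one_mul]
      rfl
    have e2 : (((1 - X ^ 3) ^ (n + 1) : E[X]) • (1 : Matrix (Fin 3) (Fin 3) E[X])) =
        ((1 - X ^ 3 : E[X]) • (1 : Matrix (Fin 3) (Fin 3) E[X])) *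
        (((1 - X ^ 3) ^ n : E[X]) • (1 : Matrix (Fin 3) (Fin 3) E[X])) := by
      rw [Matrix.smul_mul, Matrix.one_mul, smul_smul, pow_succ']
    have e3 : ∀ A : Matrix (Fin 3) (Fin 3) (Rr E r),
        A * (pr E r).mapMatrix (((1 - X ^ 3) ^ n : E[X]) • 1) =
        (pr E r).mapMatrix (((1 - X ^ 3) ^ n : E[X]) • 1) * A := by
      intro A
      rw [map_smul_one]
      exact comm_scalar _ A
    set c := (pr E r).mapMatrix (((1 - X ^ 3) ^ n : E[X]) • (1 : Matrix (Fin 3) (Fin 3) E[X]))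
      with hc
    set d := (pr E r).mapMatrix ((1 - X ^ 3 : E[X]) • (1 : Matrix (Fin 3) (Fin 3) E[X])) with hd
    have e4 : (pr E r).mapMatrix (((1 - X ^ 3) ^ (n + 1) : E[X]) •
        (1 : Matrix (Fin 3) (Fin 3) E[X])) = d * c := by rw [e2, map_mul]
    have e5 : (wg (sU h r) a b (n + 1)).val =
        (wg (sU h r) a b n).val * ((sU h r (a n)).val * (sU h r (b n))⁻¹.val) := rfl
    have e6 : (sU h r (a n)).val = (pr E r).mapMatrix (sm q (a n).1) := rfl
    have e7 : (pr E r).mapMatrix (wp q (fun i => (a i).1) (fun i => (b i).1) (n + 1)) =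
        (pr E r).mapMatrix (wp q (fun i => (a i).1) (fun i => (b i).1) n) *
        ((pr E r).mapMatrix (sm q (a n).1) * (pr E r).mapMatrix (tm q (b n).1)) := by
      rw [← map_mul, ← map_mul]
      rfl
    rw [e4, e5, e7, ← ih, ← e1, ← e6]
    generalize (wg (sU h r) a b n).val = w
    generalize (sU h r (a n)).val = s1
    generalize (sU h r (b n))⁻¹.val = s2
    calc w * (s1 * s2) * (d * c) = w * ((s1 * (s2 * d)) * c) := by
          simp only [Matrix.mul_assoc]
      _ = w * (c * (s1 * (s2 * d))) := by rw [e3]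
      _ = w * c * (s1 * (s2 * d)) := by rw [Matrix.mul_assoc]

/-- No short words in the group. -/
theorem wg_ne (h : Fr E q) (h2 : (2 : E) ≠ 0) (r : ℕ) (n : ℕ) (hn : 1 ≤ n) (hnr : n ≤ 2 * r)
    (a b : ℕ → {ρ : E // Good q ρ}) (hab : ∀ i, a i ≠ b i) (hba : ∀ i, b i ≠ a (i + 1)) :
    wg (sU h r) a b n ≠ 1 := by
  intro hw
  apply no_word h h2 (fun i => (a i).1) (fun i => (b i).1) (fun i => (a i).2) (fun i => (b i).2)
    (fun i h' => hab i (Subtype.ext h')) (fun i h' => hba i (Subtype.ext h')) n r hn hnr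
  intro i j
  have h1 := wg_sU h r a b n
  rw [hw, Units.val_one, Matrix.one_mul] at h1
  have h3 := congrFun (congrFun h1 i) j
  rw [RingHom.mapMatrix_apply, Matrix.map_apply, RingHom.mapMatrix_apply, Matrix.map_apply] at h3
  exact pr_eq.mp h3.symm

theorem sU_inj (h : Fr E q) (h2 : (2 : E) ≠ 0) (r : ℕ) (hr : 1 ≤ r) :
    Function.Injective (sU h r) := by
  intro ρ ρ' hρ
  by_contra hne
  have := wg_ne h h2 r 1 le_rfl (by omega) (fun i => if i % 2 = 0 then ρ else ρ)
    (fun i => if i % 2 = 0 then ρ' else ρ') (by intro i; simpa using hne)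
    (by intro i; simpa using fun h => hne h.symm)
  apply this
  simp [wg, hρ]

end H41GT
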