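import Pool.Agent.H41.EC.Coset
import Pool.Agent.H41.GT.Grp

/-!
Bipartite Cayley graphs.
-/

namespace H41GT

open SimpleGraph H41EC

section

variable {Φ W : Type*} {p r : Φ → W}

/-- The types of the vertices of a sequence alternate. -/
theorem alt_of_seq (hpr : ∀ g g', p g ≠ r g') (v : ℕ → W) (g : ℕ → Φ)
    (hadj : ∀ i, (v i = p (g i) ∧ v (i + 1) = r (g i)) ∨ (v i = r (g i) ∧ v (i + 1) = p (g i)))
    (h0 : v 0 = p (g 0)) (i : ℕ) :
    v (2 * i) = p (g (2 * i)) ∧ v (2 * i + 1) = r (g (2 * i)) ∧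
      v (2 * i + 1) = r (g (2 * i + 1)) ∧ v (2 * i + 2) = p (g (2 * i + 1)) := by
  induction i with
  | zero =>
    have h1 : v 1 = r (g 0) := by
      rcases hadj 0 with h | h
      · exact h.2
      · exact absurd (h0.symm.trans h.1) (hpr _ _)
    refine ⟨h0, h1, ?_⟩
    rcases hadj 1 with h | h
    · exact absurd (h.1.symm.trans h1) (hpr _ _)
    · exact ⟨h.1, h.2⟩
  | succ i ih =>
    obtain ⟨_, _, _, h4⟩ := ih
    have e : 2 * (i + 1) = 2 * i + 2 := by ring
    rw [e]
    have h5 : v (2 * i + 2) = p (g (2 * i + 2)) ∧ v (2 * i + 2 + 1) = r (g (2 * i + 2)) := by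
      rcases hadj (2 * i + 2) with h | h
      · exact h
      · exact absurd (h4.symm.trans h.1) (hpr _ _)
    have h6 : v (2 * i + 2 + 1) = r (g (2 * i + 2 + 1)) ∧
        v (2 * i + 2 + 1 + 1) = p (g (2 * i + 2 + 1)) := by
      rcases hadj (2 * i + 2 + 1) with h | h
      · exact absurd (h.1.symm.trans h5.2) (hpr _ _)
      · exact h
    exact ⟨h5.1, h5.2, h6.1, h6.2⟩

/-- Cycles give periodic sequences. -/
theorem seq_of_cycle (hpr : ∀ g g', p g ≠ r g') (k : ℕ) (hk : 3 ≤ k)
    (hc : ¬ (cycleGraph k).Free (cg p r hpr)) :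
    ∃ (v : ℕ → W) (g : ℕ → Φ), (∀ i, (v i = p (g i) ∧ v (i + 1) = r (g i)) ∨
      (v i = r (g i) ∧ v (i + 1) = p (g i))) ∧ (∀ i, v i ≠ v (i + 2)) ∧
      (∀ i, g (i + k) = g i) ∧ (∀ i, v (i + k) = v i) ∧ v 0 = p (g 0) := by
  rw [SimpleGraph.Free, not_not] at hc
  obtain ⟨f⟩ := hc
  obtain ⟨m, hm⟩ : ∃ m, k = m + 1 + 1 + 1 := ⟨k - 3, by omega⟩
  have hz : NeZero k := ⟨by omega⟩
  have hstep : ∀ i : Fin k, (cg p r hpr).Adj (f i) (f (i + 1)) := by
    intro i
    apply f.toHom.map_adj
    rw [cycleGraph_adj']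
    right
    have : (i + 1 - i : Fin k) = 1 := add_sub_cancel_left i 1
    rw [this]
    have : 1 % k = 1 := Nat.mod_eq_of_lt (by omega)
    simpa [Fin.val_one'] using this
  choose G0 hG0 using hstep
  let v : ℕ → W := fun i => f (Fin.ofNat k i)
  let g : ℕ → Φ := fun i => G0 (Fin.ofNat k i)
  have hsucc : ∀ i : ℕ, (Fin.ofNat k i + 1 : Fin k) = Fin.ofNat k (i + 1) := by
    intro i
    apply Fin.ext
    rw [Fin.val_add]
    simp [Fin.ofNat]
  have hadj : ∀ i, (v i = p (g i) ∧ v (i + 1) = r (g i)) ∨ (v i = r (g i) ∧ v (i + 1) = p (g i)) := by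
    intro i
    have := hG0 (Fin.ofNat k i)
    rw [hsucc] at this
    exact this
  have hne : ∀ i, v i ≠ v (i + 2) := by
    intro i h
    have h2 := f.injective h
    have h3 : i % k = (i + 2) % k := by
      have := congrArg Fin.val h2
      simpa [Fin.ofNat] using this
    have h4 : (i + 2 - i) % k = 0 := Nat.sub_mod_eq_zero_of_mod_eq h3.symm
    rw [Nat.add_sub_cancel_left, Nat.mod_eq_of_lt (by omega)] at h4
    omega
  have hk' : ∀ i, Fin.ofNat k (i + k) = Fin.ofNat k i := by
    intro i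
    apply Fin.ext
    simp [Fin.ofNat]
  have hper : ∀ i, g (i + k) = g i := fun i => by simp only [g, hk']
  have hperv : ∀ i, v (i + k) = v i := fun i => by simp only [v, hk']
  rcases hadj 0 with h | h
  · exact ⟨v, g, hadj, hne, hper, hperv, h.1⟩
  · have h1 : v 1 = p (g 1) := by
      rcases hadj 1 with h' | h'
      · exact h'.1
      · exact absurd (h.2.symm.trans h'.1) (hpr _ _)
    refine ⟨fun i => v (i + 1), fun i => g (i + 1), fun i => hadj (i + 1), fun i => hne (i + 1),
      fun i => ?_, fun i => ?_, h1⟩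
    · have := hper (i + 1)
      rw [show i + 1 + k = i + k + 1 by ring] at this
      exact this
    · have := hperv (i + 1)
      rw [show i + 1 + k = i + k + 1 by ring] at this
      exact this

end

/-- The bipartite Cayley graph, on `Fin n`. -/
theorem bicayley {G : Type*} [Group G] (H : Subgroup G) [Finite H] {ι : Type*} [Finite ι]
    (s : ι → G) (hs : Function.Injective s) (i0 : ι) (hH : ∀ i j, s i * (s j)⁻¹ ∈ H) (l : ℕ)
    (hw : ∀ j, 1 ≤ j → j ≤ l → ∀ a b : ℕ → ι, (∀ i, a i ≠ b i) → (∀ i, b i ≠ a (i + 1)) →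
      wg s a b j ≠ 1) (n : ℕ) (hn : 2 * Nat.card H ≤ n) :
    ∃ Γ : SimpleGraph (Fin n), (∀ k, 3 ≤ k → k ≤ 2 * l → (cycleGraph k).Free Γ) ∧
      Nat.card H * Nat.card ι ≤ Γ.edgeSet.ncard := by
  classical
  obtain ⟨e⟩ : Nonempty ((H ⊕ H) ↪ Fin n) := by
    have : Fintype H := Fintype.ofFinite _
    apply Function.Embedding.nonempty_of_card_le
    rw [Fintype.card_sum, Fintype.card_fin, ← Nat.card_eq_fintype_card]
    omega
  let p : H × ι → Fin n := fun x => e (Sum.inl x.1)
  let r : H × ι → Fin n := fun x => e (Sum.inr (x.1 * ⟨s x.2 * (s i0)⁻¹, hH _ _⟩))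
  have hpr : ∀ x y, p x ≠ r y := fun x y h => absurd (e.injective h) Sum.inl_ne_inr
  have hp : ∀ x y, p x = p y → x.1 = y.1 := fun x y h => Sum.inl_injective (e.injective h)
  have hr : ∀ x y, r x = r y → x.1.1 * s x.2 = y.1.1 * s y.2 := by
    intro x y h
    have h1 := congrArg Subtype.val (Sum.inr_injective (e.injective h))
    simp only [Subgroup.coe_mul, ← mul_assoc] at h1
    exact mul_right_cancel h1
  refine ⟨cg p r hpr, ?_, ?_⟩
  · intro k hk hkl
    by_contra hc
    obtain ⟨v, g, hadj, hne, hper, hperv, h0⟩ := seq_of_cycle hpr k hk (fun h => h hc)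
    have key := alt_of_seq hpr v g hadj h0
    rcases Nat.even_or_odd' k with ⟨j, rfl | rfl⟩
    · -- the word
      let a : ℕ → ι := fun i => (g (2 * i)).2
      let b : ℕ → ι := fun i => (g (2 * i + 1)).2
      have hstep : ∀ i, (g (2 * i)).1.1 * s (a i) = (g (2 * i + 1)).1.1 * s (b i) := by
        intro i
        obtain ⟨_, k2, k3, _⟩ := key i
        exact hr _ _ (k2.symm.trans k3)
      have hstep' : ∀ i, (g (2 * i + 1)).1 = (g (2 * (i + 1))).1 := by
        intro i
        obtain ⟨_, _, _, k4⟩ := key i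
        obtain ⟨k1, _, _, _⟩ := key (i + 1)
        have e2 : 2 * (i + 1) = 2 * i + 2 := by ring
        rw [e2] at k1 ⊢
        exact hp _ _ (k4.symm.trans k1)
      have hprod : ∀ i, (g (2 * i)).1.1 = (g 0).1.1 * wg s a b i := by
        intro i
        induction i with
        | zero => simp [wg]
        | succ i ih =>
          rw [← hstep' i]
          simp only [wg]
          rw [← mul_assoc, ← ih, ← mul_assoc, hstep i, mul_inv_cancel_right]
      apply hw j (by omega) (by omega) a b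
      · intro i hab
        have h1 := hstep i
        rw [hab] at h1
        have h2 : (g (2 * i)).1 = (g (2 * i + 1)).1 := Subtype.ext (mul_right_cancel h1)
        obtain ⟨k1, _, _, k4⟩ := key i
        apply hne (2 * i)
        rw [k1, k4]
        simp only [p, h2]
      · intro i hab
        have h1 := hstep' i
        have h2 : g (2 * i + 1) = g (2 * (i + 1)) := Prod.ext h1 hab
        obtain ⟨_, _, k3, _⟩ := key i
        obtain ⟨_, l2, _, _⟩ := key (i + 1)
        apply hne (2 * i + 1)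
        rw [k3, h2, ← l2]
        exact congrArg v (by ring)
      · have h1 := hprod j
        have h2 := hper 0
        rw [zero_add] at h2
        rw [h2] at h1
        have h3 : (g 0).1.1 * 1 = (g 0).1.1 * wg s a b j := by rw [mul_one]; exact h1
        exact (mul_left_cancel h3).symm
    · obtain ⟨_, k2, _, _⟩ := key j
      have h1 := hperv 0
      rw [zero_add, k2, h0] at h1
      exact hpr _ _ h1.symm
  · have hinj : Function.Injective (fun x : H × ι => (⟨s(p x, r x), by
        rw [SimpleGraph.mem_edgeSet]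
        exact ⟨x, Or.inl ⟨rfl, rfl⟩⟩⟩ : (cg p r hpr).edgeSet)) := by
      intro x y hxy
      have h1 : s(p x, r x) = s(p y, r y) := congrArg Subtype.val hxy
      rw [Sym2.eq_iff] at h1
      rcases h1 with h1 | h1
      · have h2 := hp _ _ h1.1
        have h3 := hr _ _ h1.2
        rw [h2] at h3
        exact Prod.ext h2 (hs (mul_left_cancel h3))
      · exact absurd h1.1 (hpr _ _)
    have := Nat.card_le_card_of_injective _ hinj
    rw [Nat.card_prod] at this
    exact this.trans (Nat.card_coe_set_eq _).le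

/-- Several disjoint copies. -/
theorem bicayley_copies {G : Type*} [Group G] (H : Subgroup G) [Finite H] {ι : Type*} [Finite ι]
    (s : ι → G) (hs : Function.Injective s) (i0 : ι) (hH : ∀ i j, s i * (s j)⁻¹ ∈ H) (l : ℕ)
    (hw : ∀ j, 1 ≤ j → j ≤ l → ∀ a b : ℕ → ι, (∀ i, a i ≠ b i) → (∀ i, b i ≠ a (i + 1)) →
      wg s a b j ≠ 1) (m : ℕ) (hm : 1 ≤ m) (n : ℕ) (hn : 2 * (Nat.card H * m) ≤ n) :
    ∃ Γ : SimpleGraph (Fin n), (∀ k, 3 ≤ k → k ≤ 2 * l → (cycleGraph k).Free Γ) ∧
      Nat.card H * m * Nat.card ι ≤ Γ.edgeSet.ncard := by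
  have hz : NeZero m := ⟨by omega⟩
  let M := Multiplicative (ZMod m)
  have hM : Nat.card M = m := by
    change Nat.card (ZMod m) = m
    exact Nat.card_zmod m
  let H' : Subgroup (G × M) := H.prod ⊤
  have hcard : Nat.card H' = Nat.card H * m := by
    have h1 := Nat.card_congr (Subgroup.prodEquiv H (⊤ : Subgroup M)).toEquiv
    rw [Nat.card_prod, Subgroup.card_top, hM] at h1
    exact h1
  have hfM : Finite M := inferInstanceAs (Finite (ZMod m))
  have hfin : Finite H' := Finite.of_equiv _ (Subgroup.prodEquiv H (⊤ : Subgroup M)).symm.toEquiv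
  have hwg : ∀ (a b : ℕ → ι) j, wg (fun i => ((s i, 1) : G × M)) a b j = (wg s a b j, 1) := by
    intro a b j
    induction j with
    | zero => rfl
    | succ j ih => simp [wg, ih]
  obtain ⟨Γ, h1, h2⟩ := bicayley H' (fun i => ((s i, 1) : G × M))
    (fun i j hij => hs (congrArg Prod.fst hij)) i0
    (fun i j => by
      rw [Subgroup.mem_prod]
      exact ⟨by simpa using hH i j, Subgroup.mem_top _⟩) l
    (fun j hj1 hj2 a b hab hba h => hw j hj1 hj2 a b hab hba (by
      rw [hwg] at h
      exact congrArg Prod.fst h)) n (by rw [hcard]; exact hn)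
  exact ⟨Γ, h1, by rw [hcard] at h2; exact h2⟩

end H41GT
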