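import Mathlib

/-!
Elements `a Π ^ n` of a cyclic algebra of degree three, as matrices, and graded matrices of
polynomials.
-/

namespace H41GT

open Polynomial Matrix

/-- The properties of the power map `x ↦ x ^ q` that are used. -/
structure Fr (E : Type*) [Field E] (q : ℕ) : Prop where
  pos : 0 < q
  add : ∀ x y : E, (x + y) ^ q = x ^ q + y ^ q
  per : ∀ x : E, x ^ q ^ 3 = x

variable {E : Type*} [Field E] {q : ℕ}

theorem Fr.add_pow (h : Fr E q) (n : ℕ) (x y : E) : (x + y) ^ q ^ n = x ^ q ^ n + y ^ q ^ n := by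
  induction n with
  | zero => simp
  | succ n ih => rw [pow_succ, pow_mul, ih, h.add, ← pow_mul, ← pow_mul]

theorem Fr.zero_pow (h : Fr E q) (n : ℕ) : (0 : E) ^ q ^ n = 0 :=
  _root_.zero_pow (pow_pos h.pos n).ne'

theorem Fr.neg_pow (h : Fr E q) (n : ℕ) (x : E) : (-x) ^ q ^ n = -x ^ q ^ n := by
  have := h.add_pow n x (-x)
  rw [add_neg_cancel, h.zero_pow] at this
  linear_combination -this

theorem Fr.sub_pow (h : Fr E q) (n : ℕ) (x y : E) : (x - y) ^ q ^ n = x ^ q ^ n - y ^ q ^ n := by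
  rw [sub_eq_add_neg, h.add_pow, h.neg_pow, sub_eq_add_neg]

theorem Fr.sum_pow (h : Fr E q) (n : ℕ) {ι : Type*} (s : Finset ι) (f : ι → E) :
    (∑ i ∈ s, f i) ^ q ^ n = ∑ i ∈ s, f i ^ q ^ n := by
  classical
  induction s using Finset.induction_on with
  | empty => simp [h.zero_pow]
  | insert a s ha ih => rw [Finset.sum_insert ha, Finset.sum_insert ha, h.add_pow, ih]

theorem Fr.per_mod (h : Fr E q) (n : ℕ) (x : E) : x ^ q ^ (n % 3) = x ^ q ^ n := by
  conv_rhs => rw [← Nat.mod_add_div n 3, pow_add, pow_mul]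
  generalize n / 3 = m
  rw [pow_mul]
  generalize x ^ q ^ (n % 3) = y
  induction m with
  | zero => simp
  | succ m ih => rw [pow_succ, pow_mul, h.per, ← ih]

/-- `el q a n` is the matrix of `a Π ^ n` at `X = 1`. -/
def el (q : ℕ) (a : E) (n : ℕ) : Matrix (Fin 3) (Fin 3) E :=
  fun i j => if (j : ℕ) = ((i : ℕ) + n) % 3 then a ^ q ^ (i : ℕ) else 0

theorem el_add (h : Fr E q) (a b : E) (n : ℕ) : el q (a + b) n = el q a n + el q b n := by
  ext i j
  simp only [el, Matrix.add_apply]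
  split_ifs
  · exact h.add_pow _ _ _
  · simp

theorem el_neg (h : Fr E q) (a : E) (n : ℕ) : el q (-a) n = -el q a n := by
  ext i j
  simp only [el, Matrix.neg_apply]
  split_ifs
  · exact h.neg_pow _ _
  · simp

theorem el_zero (h : Fr E q) (n : ℕ) : el q (0 : E) n = 0 := by
  ext i j
  simp only [el, Matrix.zero_apply]
  split_ifs
  · exact h.zero_pow _
  · rfl

theorem el_sum (h : Fr E q) {ι : Type*} (s : Finset ι) (f : ι → E) (n : ℕ) :
    el q (∑ i ∈ s, f i) n = ∑ i ∈ s, el q (f i) n := by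
  classical
  induction s using Finset.induction_on with
  | empty => simp [el_zero h]
  | insert a s ha ih => rw [Finset.sum_insert ha, Finset.sum_insert ha, el_add h, ih]

theorem el_mul (h : Fr E q) (a b : E) (m n : ℕ) :
    el q a m * el q b n = el q (a * b ^ q ^ m) (m + n) := by
  ext i j
  rw [Matrix.mul_apply]
  have hk : ((i : ℕ) + m) % 3 < 3 := Nat.mod_lt _ (by norm_num)
  rw [Finset.sum_eq_single (⟨((i : ℕ) + m) % 3, hk⟩ : Fin 3)]
  · have e : (((i : ℕ) + m) % 3 + n) % 3 = ((i : ℕ) + (m + n)) % 3 := by omega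
    simp only [el, if_true, e]
    split_ifs
    · rw [h.per_mod, mul_pow, ← pow_mul, ← pow_add, Nat.add_comm (i : ℕ) m]
    · simp
  · intro k _ hne
    simp only [el]
    rw [if_neg, zero_mul]
    intro h'
    exact hne (Fin.ext h')
  · intro h'
    exact absurd (Finset.mem_univ _) h'

theorem el_eq_zero {a : E} {n : ℕ} (h : el q a n = 0) : a = 0 := by
  have := congrFun (congrFun h 0) ⟨n % 3, Nat.mod_lt _ (by norm_num)⟩
  simpa [el] using this

theorem el_inj (h : Fr E q) {a b : E} {n : ℕ} (hab : el q a n = el q b n) : a = b := by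
  have h1 : el q (a - b) n = 0 := by
    rw [sub_eq_add_neg, el_add h, el_neg h, hab, add_neg_cancel]
  exact sub_eq_zero.mp (el_eq_zero h1)

/-- The determinant of `el q a n`. -/
theorem el_det (a : E) (n : ℕ) : (el q a n).det = a * a ^ q * a ^ q ^ 2 := by
  rw [Matrix.det_fin_three]
  have : n % 3 = 0 ∨ n % 3 = 1 ∨ n % 3 = 2 := by omega
  rcases this with h | h | h
  · have h0 : (0 + n) % 3 = 0 := by omega
    have h1 : (1 + n) % 3 = 1 := by omega
    have h2 : (2 + n) % 3 = 2 := by omega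
    simp [el, h, h1, h2]
  · have h0 : (0 + n) % 3 = 1 := by omega
    have h1 : (1 + n) % 3 = 2 := by omega
    have h2 : (2 + n) % 3 = 0 := by omega
    simp [el, h, h1, h2]
  · have h0 : (0 + n) % 3 = 2 := by omega
    have h1 : (1 + n) % 3 = 0 := by omega
    have h2 : (2 + n) % 3 = 1 := by omega
    simp [el, h, h1, h2]

/-- Graded matrices: the coefficient of `X ^ n` is of the form `el q a n`. -/
def Gr (q : ℕ) (A : Matrix (Fin 3) (Fin 3) E[X]) : Prop :=
  ∀ n, ∃ a : E, ∀ i j, (A i j).coeff n = el q a n i j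

theorem Gr.add (h : Fr E q) {A B : Matrix (Fin 3) (Fin 3) E[X]} (hA : Gr q A) (hB : Gr q B) :
    Gr q (A + B) := by
  intro n
  obtain ⟨a, ha⟩ := hA n
  obtain ⟨b, hb⟩ := hB n
  refine ⟨a + b, fun i j => ?_⟩
  rw [Matrix.add_apply, coeff_add, ha, hb, el_add h, Matrix.add_apply]

theorem Gr.neg (h : Fr E q) {A : Matrix (Fin 3) (Fin 3) E[X]} (hA : Gr q A) : Gr q (-A) := by
  intro n
  obtain ⟨a, ha⟩ := hA n
  refine ⟨-a, fun i j => ?_⟩
  rw [Matrix.neg_apply, coeff_neg, ha, el_neg h, Matrix.neg_apply]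

theorem Gr.sub (h : Fr E q) {A B : Matrix (Fin 3) (Fin 3) E[X]} (hA : Gr q A) (hB : Gr q B) :
    Gr q (A - B) := by
  rw [sub_eq_add_neg]
  exact hA.add h (hB.neg h)

theorem Gr.mul (h : Fr E q) {A B : Matrix (Fin 3) (Fin 3) E[X]} (hA : Gr q A) (hB : Gr q B) :
    Gr q (A * B) := by
  choose a ha using hA
  choose b hb using hB
  intro n
  refine ⟨∑ p ∈ Finset.HasAntidiagonal.antidiagonal n, a p.1 * b p.2 ^ q ^ p.1, fun i j => ?_⟩
  rw [el_sum h, Matrix.mul_apply, finsetSum_coeff]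
  simp_rw [coeff_mul]
  rw [Finset.sum_comm, Matrix.sum_apply]
  apply Finset.sum_congr rfl
  intro p hp
  rw [← Finset.HasAntidiagonal.mem_antidiagonal.mp hp, ← el_mul h, Matrix.mul_apply]
  apply Finset.sum_congr rfl
  intro k _
  rw [ha, hb]

/-- The matrix `a Π ^ n`. -/
noncomputable def mon (q : ℕ) (a : E) (n : ℕ) : Matrix (Fin 3) (Fin 3) E[X] :=
  fun i j => C (el q a n i j) * X ^ n

theorem mon_gr (h : Fr E q) (a : E) (n : ℕ) : Gr q (mon q a n) := by
  intro m
  by_cases hm : m = n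
  · subst hm
    exact ⟨a, fun i j => by simp [mon]⟩
  · exact ⟨0, fun i j => by
      rw [el_zero h]
      simp only [mon, coeff_C_mul, coeff_X_pow, Matrix.zero_apply, if_neg hm, mul_zero]⟩

theorem mon_mul (h : Fr E q) (a b : E) (m n : ℕ) :
    mon q a m * mon q b n = mon q (a * b ^ q ^ m) (m + n) := by
  ext1 i j
  rw [Matrix.mul_apply]
  simp only [mon]
  rw [← el_mul h, Matrix.mul_apply, map_sum, Finset.sum_mul]
  apply Finset.sum_congr rfl
  intro k _
  rw [C_mul, pow_add]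
  ring

theorem mon_one : mon q (1 : E) 0 = 1 := by
  ext1 i j
  rw [Matrix.one_apply]
  simp only [mon, el, one_pow, Nat.add_zero, pow_zero, mul_one]
  rw [Nat.mod_eq_of_lt i.2]
  by_cases h : i = j
  · subst h; simp
  · rw [if_neg h, if_neg (fun h' => h (Fin.ext h'.symm))]; simp

theorem mon_X3 (n : ℕ) : mon q (1 : E) (3 * n) = (X ^ (3 * n) : E[X]) • (1 : Matrix (Fin 3) (Fin 3) E[X]) := by
  ext1 i j
  rw [Matrix.smul_apply, Matrix.one_apply]
  have e : ((i : ℕ) + 3 * n) % 3 = (i : ℕ) := by omega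
  simp only [mon, el, one_pow, e, smul_eq_mul]
  by_cases h : i = j
  · subst h; simp
  · rw [if_neg h, if_neg (fun h' => h (Fin.ext h'.symm))]; simp

theorem gr_one (h : Fr E q) : Gr q (1 : Matrix (Fin 3) (Fin 3) E[X]) := by
  rw [← mon_one (q := q)]
  exact mon_gr h _ _

theorem gr_zero (h : Fr E q) : Gr q (0 : Matrix (Fin 3) (Fin 3) E[X]) := by
  intro n
  exact ⟨0, fun i j => by rw [el_zero h]; simp⟩

end H41GT
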