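import Pool.Agent.H41.GT.Letter

/-!
The field with `q ^ 3` elements, `q = 3 ^ m`, and the parameters of the letters.
-/

namespace H41GT

open Polynomial Matrix

variable {E : Type*} [Field E] {q : ℕ}

/-- A good parameter from a nonzero element of trace zero. -/
theorem good_of_trace (h : Fr E q) (k M : ℕ) (hq : q = 2 * k + 1) (hM : k * (1 + q + q ^ 2) = M)
    (y : E) (hy : y ≠ 0) (hyM : y ^ (2 * M) = 1) (htr : y + y ^ q + y ^ q ^ 2 = 0) :
    Good q (y ^ (k + M)) ∧ (y ^ (k + M)) ^ 2 = y ^ (2 * k) := by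
  have e2 : y ^ M * y ^ M = 1 := by rw [← pow_add, ← two_mul, hyM]
  have eq : (y ^ M) ^ q = y ^ M := by
    rw [hq, pow_succ, pow_mul, pow_two, e2, one_pow, one_mul]
  have eq2 : (y ^ M) ^ q ^ 2 = y ^ M := by
    rw [pow_two q, pow_mul, eq, eq]
  have hsq : (y ^ (k + M)) ^ 2 = y ^ (2 * k) := by
    rw [← pow_mul, show (k + M) * 2 = 2 * k + 2 * M by ring, pow_add, hyM, mul_one]
  refine ⟨⟨?_, ?_, ?_⟩, hsq⟩
  · rw [pow_add, mul_pow, mul_pow, eq, eq2]
    calc y ^ k * y ^ M * ((y ^ k) ^ q * y ^ M) * ((y ^ k) ^ q ^ 2 * y ^ M)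
        = (y ^ (k * (1 + q + q ^ 2))) * y ^ M * (y ^ M * y ^ M) := by
          rw [mul_add, mul_add, mul_one, pow_add, pow_add, pow_mul, pow_mul]
          ring
      _ = 1 := by rw [hM, e2, one_mul]
  · rw [hsq]
    apply mul_right_cancel₀ hy
    rw [zero_mul, ← htr]
    have e3 : y ^ q ^ 2 = (y ^ (2 * k)) ^ q * y ^ (2 * k) * y := by
      rw [← pow_mul, ← pow_add, ← pow_succ]
      congr 1
      rw [hq]
      ring
    have e4 : y ^ q = y ^ (2 * k) * y := by rw [← pow_succ, ← hq]
    rw [e3, e4]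
    ring
  · refine ⟨(y ^ (k + 1))⁻¹, inv_ne_zero (pow_ne_zero _ hy), ?_⟩
    have e5 : (y ^ (k + M)) ^ q * y ^ (k + M) = y ^ (k * q) * y ^ k := by
      rw [pow_add, mul_pow, eq, ← pow_mul]
      calc y ^ (k * q) * y ^ M * (y ^ k * y ^ M) = y ^ (k * q) * y ^ k * (y ^ M * y ^ M) := by ring
        _ = _ := by rw [e2, mul_one]
    have e6 : y ^ ((k + 1) * q) = y ^ (k * q) * y ^ k * y ^ (k + 1) := by
      rw [← pow_add, ← pow_add]
      congr 1
      rw [hq]
      ring
    rw [e5, inv_pow, ← pow_mul, e6]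
    have h1 : y ^ (k * q) ≠ 0 := pow_ne_zero _ hy
    have h2 : y ^ k ≠ 0 := pow_ne_zero _ hy
    have h3 : y ^ (k + 1) ≠ 0 := pow_ne_zero _ hy
    field_simp

/-- The number of elements of trace zero. -/
theorem trace_zero_card (h : Fr E q) [Fintype E] [DecidableEq E] (hq1 : 1 < q)
    (hcard : Fintype.card E = q ^ 3) :
    q ^ 2 ≤ (Finset.univ.filter (fun y : E => y + y ^ q + y ^ q ^ 2 = 0)).card := by
  classical
  have hper := h.per
  let f : E → E := fun y => y + y ^ q + y ^ q ^ 2
  have hadd : ∀ x y, f (x + y) = f x + f y := by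
    intro x y
    have h1 := h.add_pow 1 x y
    have h2 := h.add_pow 2 x y
    rw [pow_one] at h1
    simp only [f, h1, h2]
    ring
  have hsub : ∀ x y, f (x - y) = f x - f y := by
    intro x y
    have := hadd (x - y) y
    rw [sub_add_cancel] at this
    rw [this, add_sub_cancel_right]
  have hfix : ∀ y, f y ^ q = f y := by
    intro y
    have h1 := h.add_pow 1 (y + y ^ q) (y ^ q ^ 2)
    have h2 := h.add_pow 1 y (y ^ q)
    rw [pow_one] at h1 h2
    simp only [f]
    rw [h1, h2, ← pow_mul, ← pow_mul, ← pow_two, ← pow_succ, h.per]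
    ring
  -- the image has at most `q` elements
  have him : (Finset.univ.image f).card ≤ q := by
    let p : E[X] := X ^ q - X
    have hp : p ≠ 0 := by
      intro hp0
      have := congrArg (fun r => coeff r q) hp0
      simp only [p, coeff_sub, coeff_X_pow, coeff_X, coeff_zero, if_true] at this
      rw [if_neg (by omega)] at this
      simp at this
    have hdeg : p.natDegree ≤ q := by
      refine (natDegree_sub_le _ _).trans (max_le ?_ ?_)
      · rw [natDegree_X_pow]
      · rw [natDegree_X]; omega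
    have hsubset : Finset.univ.image f ⊆ p.roots.toFinset := by
      intro x hx
      obtain ⟨y, _, rfl⟩ := Finset.mem_image.mp hx
      rw [Multiset.mem_toFinset, mem_roots hp, IsRoot.def]
      simp only [p, eval_sub, eval_pow, eval_X, hfix, sub_self]
    calc (Finset.univ.image f).card ≤ p.roots.toFinset.card := Finset.card_le_card hsubset
      _ ≤ Multiset.card p.roots := Multiset.toFinset_card_le _
      _ ≤ p.natDegree := card_roots' p
      _ ≤ q := hdeg
  -- the fibres
  have hfib : (Finset.univ : Finset E).card ≤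
      (Finset.univ.filter (fun y : E => f y = 0)).card * (Finset.univ.image f).card := by
    apply Finset.card_le_mul_card_image
    intro b hb
    obtain ⟨y, _, rfl⟩ := Finset.mem_image.mp hb
    apply Finset.card_le_card_of_injOn (fun x => x - y)
    · intro x hx
      simp only [Finset.coe_filter, Finset.mem_univ, true_and, Set.mem_ofPred_eq] at hx ⊢
      rw [hsub, hx, sub_self]
    · intro x _ x' _ hxx
      exact sub_left_injective hxx
  rw [Finset.card_univ, hcard] at hfib
  have h3 : q ^ 3 ≤ (Finset.univ.filter (fun y : E => f y = 0)).card * q :=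
    hfib.trans (Nat.mul_le_mul_left _ him)
  rw [pow_succ] at h3
  exact Nat.le_of_mul_le_mul_right h3 h.pos

/-- There are at least `q + 1` good parameters. -/
theorem good_card (h : Fr E q) [Fintype E] (k : ℕ) (hk : 1 ≤ k) (hq : q = 2 * k + 1)
    (hcard : Fintype.card E = q ^ 3) : q + 1 ≤ Nat.card {ρ : E // Good q ρ} := by
  classical
  set M := k * (1 + q + q ^ 2) with hM
  have h2M : 2 * M = q ^ 3 - 1 := by
    have : 2 * M + 1 = q ^ 3 := by
      rw [hM, hq]
      ring
    omega
  have hyM : ∀ y : E, y ≠ 0 → y ^ (2 * M) = 1 := by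
    intro y hy
    rw [h2M, ← hcard]
    exact FiniteField.pow_card_sub_one_eq_one y hy
  set S := (Finset.univ.filter (fun y : E => y + y ^ q + y ^ q ^ 2 = 0)) with hS
  have h1 : q ^ 2 ≤ S.card := trace_zero_card h (by omega) hcard
  set S0 := S.erase 0 with hS0
  have hS0c : q ^ 2 - 1 ≤ S0.card := by
    have : S.card - 1 ≤ S0.card := Finset.pred_card_le_card_erase
    omega
  have hfib : S0.card ≤ (2 * k) * (S0.image (fun y => y ^ (2 * k))).card := by
    apply Finset.card_le_mul_card_image
    intro b _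
    have : (S0.filter (fun y => y ^ (2 * k) = b)) ⊆ (nthRoots (2 * k) b).toFinset := by
      intro y hy
      rw [Multiset.mem_toFinset, mem_nthRoots (by omega)]
      exact (Finset.mem_filter.mp hy).2
    calc _ ≤ (nthRoots (2 * k) b).toFinset.card := Finset.card_le_card this
      _ ≤ Multiset.card (nthRoots (2 * k) b) := Multiset.toFinset_card_le _
      _ ≤ 2 * k := card_nthRoots _ _
  have himg : q + 1 ≤ (S0.image (fun y => y ^ (2 * k))).card := by
    have h2 : (2 * k) * (q + 1) ≤ (2 * k) * (S0.image (fun y => y ^ (2 * k))).card := by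
      calc (2 * k) * (q + 1) = q ^ 2 - 1 := by
            have : (2 * k) * (q + 1) + 1 = q ^ 2 := by rw [hq]; ring
            omega
        _ ≤ S0.card := hS0c
        _ ≤ _ := hfib
    exact Nat.le_of_mul_le_mul_left h2 (by omega)
  refine himg.trans ?_
  rw [Nat.card_eq_fintype_card, Fintype.card_subtype]
  have hsub : S0.image (fun y => y ^ (2 * k)) ⊆
      (Finset.univ.filter (fun ρ : E => Good q ρ)).image (fun ρ => ρ ^ 2) := by
    intro c hc
    obtain ⟨y, hy, rfl⟩ := Finset.mem_image.mp hc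
    obtain ⟨hy0, hyS⟩ := Finset.mem_erase.mp hy
    have htr : y + y ^ q + y ^ q ^ 2 = 0 := (Finset.mem_filter.mp hyS).2
    obtain ⟨g1, g2⟩ := good_of_trace h k M hq hM.symm y hy0 (hyM y hy0) htr
    exact Finset.mem_image.mpr ⟨_, Finset.mem_filter.mpr ⟨Finset.mem_univ _, g1⟩, g2⟩
  exact (Finset.card_le_card hsub).trans Finset.card_image_le

/-- The field. -/
theorem field_exists (m : ℕ) (hm : 1 ≤ m) : ∃ (E : Type) (_ : Field E) (_ : Finite E),
    (2 : E) ≠ 0 ∧ Fr E (3 ^ m) ∧ Nat.card E = (3 ^ m) ^ 3 ∧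
      3 ^ m + 1 ≤ Nat.card {ρ : E // Good (3 ^ m) ρ} := by
  classical
  have : Fact (Nat.Prime 3) := ⟨by norm_num⟩
  let E := GaloisField 3 (m * 3)
  have : Finite E := Module.finite_of_finite (ZMod 3)
  have : Fintype E := Fintype.ofFinite E
  have hcard : Nat.card E = (3 ^ m) ^ 3 := by
    rw [GaloisField.card 3 (m * 3) (by omega), pow_mul]
  have hcard' : Fintype.card E = (3 ^ m) ^ 3 := by
    rw [← hcard, Nat.card_eq_fintype_card]
  have h2 : (2 : E) ≠ 0 := by
    intro h
    have h3 : (3 : E) = 0 := by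
      have := CharP.cast_eq_zero E 3
      exact_mod_cast this
    have : (1 : E) = 0 := by linear_combination h3 - h
    exact one_ne_zero this
  have hFr : Fr E (3 ^ m) := by
    refine ⟨by positivity, ?_, ?_⟩
    · intro x y
      exact add_pow_char_pow x y 3 m
    · intro x
      rw [← hcard']
      exact FiniteField.pow_card x
  obtain ⟨k, hk⟩ : ∃ k, 3 ^ m = 2 * k + 1 := by
    have : Odd (3 ^ m) := Odd.pow (by decide)
    exact this
  have hk1 : 1 ≤ k := by
    have : 3 ^ 1 ≤ 3 ^ m := Nat.pow_le_pow_right (by norm_num) hm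
    omega
  exact ⟨E, inferInstance, inferInstance, h2, hFr, hcard, good_card hFr k hk1 hk hcard'⟩

end H41GT
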