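import Pool.Agent.H41.GT.Cay
import Pool.Agent.H41.GT.Params

/-!
Numerics.
-/

namespace H41GT

open SimpleGraph

/-- Graphs of girth more than `2 l`, for even `l`. -/
theorem main (l : ℕ) (hev : Even l) (hl : 2 ≤ l) (n : ℕ) (hn : 4 * 3 ^ (4 * l / 3) ≤ n) :
    ∃ Γ : SimpleGraph (Fin n), (∀ j, 3 ≤ j → j ≤ 2 * l → (cycleGraph j).Free Γ) ∧
      (1 / 24 : ℝ) * (n : ℝ) ^ (1 + 1 / ((4 * l / 3 : ℕ) : ℝ)) ≤ Γ.edgeSet.ncard := by
  obtain ⟨r, hr⟩ := hev
  set k := 4 * l / 3 with hk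
  have hk2 : 2 ≤ k := by omega
  -- choice of `m`
  obtain ⟨m, hm1, hm2, hm3⟩ : ∃ m, 1 ≤ m ∧ 4 * (3 ^ m) ^ k ≤ n ∧ n < 4 * (3 * 3 ^ m) ^ k := by
    have h1 : 1 < 3 ^ k := Nat.one_lt_pow (by omega) (by norm_num)
    have h2 : n / 4 ≠ 0 := by
      have : 4 ≤ n := le_trans (by have := Nat.one_le_pow k 3 (by norm_num); omega) hn
      omega
    refine ⟨Nat.log (3 ^ k) (n / 4), ?_, ?_, ?_⟩
    · apply (Nat.le_log_iff_pow_le h1 h2).mpr
      rw [pow_one]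
      omega
    · have := Nat.pow_log_le_self (3 ^ k) h2
      rw [← pow_mul, mul_comm k, pow_mul] at this
      omega
    · have := Nat.lt_pow_succ_log_self h1 (n / 4)
      rw [pow_succ, ← pow_mul, mul_comm k, pow_mul, mul_comm, ← mul_pow] at this
      omega
  obtain ⟨E, _, _, h2, hFr, hcard, hgood⟩ := field_exists m hm1
  set q := 3 ^ m with hq
  have hq3 : 3 ≤ q := by
    calc 3 = 3 ^ 1 := by norm_num
      _ ≤ 3 ^ m := Nat.pow_le_pow_right (by norm_num) hm1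
  obtain ⟨s, rfl⟩ : ∃ s, r = s + 1 := ⟨r - 1, by omega⟩
  obtain ⟨hfin, hHc⟩ := HH_card hFr (by omega) hcard s
  have hH1 : 1 ≤ Nat.card (HH hFr (s + 1)) := Nat.card_pos
  set g0 := Nat.card (HH hFr (s + 1)) with hg0
  have hg : 2 * g0 ≤ 4 * q ^ k := by
    have h3 : q ^ 2 + q + 1 ≤ 2 * q ^ 2 := by nlinarith
    have h4 : g0 ≤ 2 * q ^ k := by
      calc g0 ≤ (q ^ 2 + q + 1) * q ^ (3 * s - s / 3) := hHc
        _ ≤ (2 * q ^ 2) * q ^ (3 * s - s / 3) := Nat.mul_le_mul_right _ h3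
        _ = 2 * q ^ (2 + (3 * s - s / 3)) := by rw [pow_add]; ring
        _ = 2 * q ^ k := by
          congr 2
          omega
    omega
  set M := n / (2 * g0) with hM
  have hM1 : 1 ≤ M := (Nat.one_le_div_iff (by omega)).mpr (hg.trans hm2)
  have hM2 : 2 * (g0 * M) ≤ n := by
    have := Nat.div_mul_le_self n (2 * g0)
    calc 2 * (g0 * M) = n / (2 * g0) * (2 * g0) := by rw [hM]; ring
      _ ≤ n := this
  have hne : Nonempty {ρ : E // Good q ρ} := by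
    have : 0 < Nat.card {ρ : E // Good q ρ} := by omega
    exact (Nat.card_pos_iff.mp this).1
  obtain ⟨i0⟩ := hne
  obtain ⟨Γ, hfree, hedge⟩ := bicayley_copies (HH hFr (s + 1)) (sU hFr (s + 1))
    (sU_inj hFr h2 (s + 1) (by omega)) i0
    (fun i j => Subgroup.subset_closure ⟨i, j, rfl⟩) l
    (fun j hj1 hj2 a b hab hba => wg_ne hFr h2 (s + 1) j hj1 (by omega) a b hab hba)
    M hM1 n hM2
  refine ⟨Γ, hfree, ?_⟩
  -- numerics
  have hM3 : n < 2 * g0 * (M + 1) := by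
    have := Nat.lt_mul_div_succ n (show 0 < 2 * g0 by omega)
    simpa [hM] using this
  have hM4 : n ≤ 4 * (g0 * M) := by
    have : 2 * g0 * (M + 1) ≤ 2 * g0 * (2 * M) := Nat.mul_le_mul_left _ (by omega)
    calc n ≤ 2 * g0 * (M + 1) := hM3.le
      _ ≤ 2 * g0 * (2 * M) := this
      _ = 4 * (g0 * M) := by ring
  have hM5 : (n : ℝ) * q ≤ 4 * Γ.edgeSet.ncard := by
    have : n * q ≤ 4 * Γ.edgeSet.ncard := by
      calc n * q ≤ 4 * (g0 * M) * q := Nat.mul_le_mul_right _ hM4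
        _ = 4 * (g0 * M * q) := by ring
        _ ≤ 4 * (g0 * M * Nat.card {ρ : E // Good q ρ}) :=
          Nat.mul_le_mul_left _ (Nat.mul_le_mul_left _ (by omega))
        _ ≤ _ := Nat.mul_le_mul_left _ hedge
    exact_mod_cast this
  have hn0 : (0 : ℝ) < n := by
    have : 0 < n := lt_of_lt_of_le (by positivity) hn
    exact_mod_cast this
  have hkR : (0 : ℝ) < k := by exact_mod_cast (show 0 < k by omega)
  have h6 : (n : ℝ) ^ (1 / (k : ℝ)) ≤ 6 * q := by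
    have h7 : (n : ℝ) ≤ (6 * q : ℝ) ^ k := by
      have h8 : (n : ℝ) ≤ 4 * (3 * q) ^ k := by exact_mod_cast hm3.le
      have h9 : (4 : ℝ) ≤ 2 ^ k := by
        calc (4 : ℝ) = 2 ^ 2 := by norm_num
          _ ≤ 2 ^ k := pow_le_pow_right₀ (by norm_num) hk2
      calc (n : ℝ) ≤ 4 * (3 * q) ^ k := h8
        _ ≤ 2 ^ k * (3 * q) ^ k := by gcongr
        _ = (6 * q : ℝ) ^ k := by rw [← mul_pow]; ring
    calc (n : ℝ) ^ (1 / (k : ℝ)) ≤ ((6 * q : ℝ) ^ k) ^ (1 / (k : ℝ)) := by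
          apply Real.rpow_le_rpow hn0.le h7
          positivity
      _ = 6 * q := by
          rw [one_div, Real.pow_rpow_inv_natCast (by positivity) (by omega)]
  rw [Real.rpow_add hn0, Real.rpow_one]
  have h9 : (n : ℝ) * (n : ℝ) ^ (1 / (k : ℝ)) ≤ n * (6 * q) := by gcongr
  nlinarith

end H41GT
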