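import Pool.Agent.H93.GT.Targets

/-! module GCO of the dichotomy for the synthesis property (MP_de9001_an) -/

namespace Pool.Agent.H41.GT

open Pool.Agent.H93.GT Pool.Agent.H87.Synth Pool.Agent.H85.SC Finset
open Pool.Agent.H93.ET (sg jj iE iA T_KKL T_CUT T_BRK T_SER T_CRI)
open Filter Topology

/-- module GCO -/
theorem gco (h1 : T_GLO) : T_GCO := by
  classical
  intro d P
  refine continuous_pi fun m => continuous_pi fun n => ?_
  obtain ⟨F, hF⟩ := h1 d P m n
  rw [continuous_iff_continuousAt]
  intro T0
  have hU : {T : List ℕ → Bool | ∀ k ∈ F, ∀ j ∈ Finset.range ((dec k).length + 1),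
      T ((dec k).take j) = T0 ((dec k).take j)} ∈ 𝓝 T0 := by
    have hopen : IsOpen {T : List ℕ → Bool | ∀ k ∈ F, ∀ j ∈ Finset.range ((dec k).length + 1),
        T ((dec k).take j) = T0 ((dec k).take j)} := by
      have e : {T : List ℕ → Bool | ∀ k ∈ F, ∀ j ∈ Finset.range ((dec k).length + 1),
          T ((dec k).take j) = T0 ((dec k).take j)}
          = ⋂ k ∈ F, ⋂ j ∈ Finset.range ((dec k).length + 1),
            (fun T : List ℕ → Bool => T ((dec k).take j)) ⁻¹' {T0 ((dec k).take j)} := by
        ext T
        simp only [Set.mem_ofPred_eq, Set.mem_iInter, Set.mem_preimage, Set.mem_singleton_iff]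
      rw [e]
      refine isOpen_biInter_finset fun k _ => isOpen_biInter_finset fun j _ => ?_
      exact (isOpen_discrete _).preimage (continuous_apply _)
    exact hopen.mem_nhds fun k _ j _ => rfl
  refine continuousAt_const.congr (f := fun _ => grelB P (Pool.Agent.H85.SC.ST T0) m n) ?_
  filter_upwards [hU] with T hT
  have h1 : ∀ k ∈ F, k ∈ Pool.Agent.H85.SC.ST T0 ↔ k ∈ Pool.Agent.H85.SC.ST T := by
    intro k hk
    unfold Pool.Agent.H85.SC.ST
    simp only [Set.mem_ofPred_eq]
    constructor
    · rintro (h | h)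
      · exact Or.inl h
      · exact Or.inr fun j hj => by
          rw [hT k hk j (Finset.mem_range.2 (by omega))]
          exact h j hj
    · rintro (h | h)
      · exact Or.inl h
      · exact Or.inr fun j hj => by
          rw [← hT k hk j (Finset.mem_range.2 (by omega))]
          exact h j hj
  have h2 := hF (Pool.Agent.H85.SC.ST T0) (Pool.Agent.H85.SC.ST T) h1
  unfold grelB
  simp only [h2]

end Pool.Agent.H41.GT
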