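import Pool.Agent.H93.GT.Targets

/-! module GPV of the dichotomy for the synthesis property (MP_de9001_an): values of the pieces -/

namespace Pool.Agent.H41.GT

open Pool.Agent.H93.GT Pool.Agent.H87.Synth Pool.Agent.H85.SC Finset
open Pool.Agent.H93.ET (sg jj iE iA T_KKL T_CUT T_BRK T_SER T_CRI)

theorem gpv_ind_t {P : ℤ → Prop} {z : ℤ} (h : P z) : ind P z = 1 := by
  simp [ind, h]

theorem gpv_ind_f {P : ℤ → Prop} {z : ℤ} (h : ¬ P z) : ind P z = 0 := by
  simp [ind, h]

theorem gpv_lvl {n i : ℕ} (h : i = 2 ^ lg i) : lvl n i = n := by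
  unfold lvl
  omega

theorem gpv_slot_lt {n i i' : ℕ} (h : i' < i) : slot n i' < slot n i := by
  unfold slot
  have : i' ^ 2 < i ^ 2 := Nat.pow_lt_pow_left h (by norm_num)
  omega

theorem gpv_slot_le {n i i' : ℕ} (h : i' ≤ i) : slot n i' ≤ slot n i := by
  rcases h.lt_or_eq with h | h
  · exact (gpv_slot_lt h).le
  · rw [h]

theorem gpv_slot_pos {n i : ℕ} (h : 1 ≤ i) : 1 ≤ slot n i := by
  unfold slot
  have : 1 ≤ i ^ 2 := Nat.one_le_pow _ _ h
  omega

theorem gpv_mono (h4 : T_GSZ) {d : ℕ → ℝ} (P : Pos d) {r r' : ℕ} (h : r ≤ r') :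
    P.X r ≤ P.X r' := by
  rcases h.lt_or_eq with h | h
  · have := ((h4 d P).2.2.1 r r' h).1
    omega
  · rw [h]

theorem gpv_one (h1 : T_GVL) (h4 : T_GSZ) {d : ℕ → ℝ} (P : Pos d) {q r : ℕ} {z : ℤ}
    (hz : |z| ≤ 3 * P.X q) (hr : q ≤ r) : P.VG r z = 1 := by
  refine (h1 d P).1 r z ?_
  have := gpv_mono h4 P hr
  have h0 : (P.X q : ℤ) ≤ P.X r := by exact_mod_cast this
  have h0' : (0 : ℤ) ≤ P.X q := by positivity
  linarith

theorem gpv_zero (h1 : T_GVL) (h4 : T_GSZ) {d : ℕ → ℝ} (P : Pos d) {p r : ℕ} {z : ℤ}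
    (hz : (P.X p : ℤ) ≤ 4 * |z|) (hr : r < p) : P.VG r z = 0 := by
  refine (h1 d P).2.1 r z ?_
  have := gpv_mono h4 P (show r + 1 ≤ p from hr)
  have h0 : (P.X (r + 1) : ℤ) ≤ P.X p := by exact_mod_cast this
  linarith

theorem gpv_st (h1 : T_GVL) (h4 : T_GSZ) {d : ℕ → ℝ} (P : Pos d) {q : ℕ} {z : ℤ}
    (hz1 : (P.X q : ℤ) ≤ z) (hz2 : z < 2 * P.X q) (r : ℕ) :
    P.VG r z = if q ≤ r then 1 else 0 := by
  have h0 : (0 : ℤ) ≤ P.X q := by positivity
  have habs : |z| = z := abs_of_nonneg (h0.trans hz1)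
  split_ifs with h
  · exact gpv_one h1 h4 P (by rw [habs]; linarith) h
  · exact gpv_zero h1 h4 P (p := q) (by rw [habs]; linarith) (by omega)

theorem gpv_ind (h6 : T_APD) (h2 : T_LNS) {c c' : ℤ} {n n' : ℕ} {e e' z : ℤ}
    (hc : c = 1 ∨ c = 3) (hc' : c' = 1 ∨ c' = 3) (he : 0 ≤ e) (he6 : e < 6) (he' : 0 ≤ e')
    (he6' : e' < 6) (h : lr c' n' e' z) :
    ind (lr c n e) z = if c = c' ∧ n = n' ∧ e = e' then 1 else 0 := by
  by_cases hall : c = c' ∧ n = n' ∧ e = e'
  · rw [if_pos hall]
    obtain ⟨a1, a2, a3⟩ := hall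
    subst a1 a2 a3
    exact gpv_ind_t h
  · rw [if_neg hall]
    refine gpv_ind_f fun h' => hall ?_
    have hcc : c = c' ∧ n = n' := by
      rcases hc with hc | hc <;> rcases hc' with hc' | hc'
      · subst hc hc'
        exact ⟨rfl, h6.1 _ _ z (h2.2.2.2.1 _ _ _ h') (h2.2.2.2.1 _ _ _ h)⟩
      · subst hc hc'
        exact absurd (h2.2.2.2.2.1 _ _ _ h) (h6.2.2.1 _ _ z (h2.2.2.2.1 _ _ _ h'))
      · subst hc hc'
        exact absurd (h2.2.2.2.2.1 _ _ _ h') (h6.2.2.1 _ _ z (h2.2.2.2.1 _ _ _ h))
      · subst hc hc'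
        exact ⟨rfl, h6.2.1 _ _ z (h2.2.2.2.2.1 _ _ _ h') (h2.2.2.2.2.1 _ _ _ h)⟩
    obtain ⟨a1, a2⟩ := hcc
    subst a1 a2
    exact ⟨rfl, rfl, h2.2.2.1 _ _ _ _ z he he6 he' he6' h' h⟩

theorem gpv_diff (h6 : T_APD) (h2 : T_LNS) {c : ℤ} {n n' i' : ℕ} {j z : ℤ} {s : Bool}
    (hc : c = 1 ∨ c = 3) (hj : j = 0 ∨ j = 1) (h : lr (lc i') n' (2 * rho i' + jj s) z)
    (hrho : rho i' = 0 ∨ rho i' = 1) (hlc : lc i' = 1 ∨ lc i' = 3) :
    ind (lr c n (2 * j)) z - ind (lr c n (2 * j + 1)) z =
      if c = lc i' ∧ n = n' ∧ j = rho i' then (sg s : ℂ) else 0 := by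
  have hjs : jj s = 0 ∨ jj s = 1 := by
    cases s
    · right; simp [jj]
    · left; simp [jj]
  rw [gpv_ind h6 h2 (e := 2 * j) hc hlc (by omega) (by omega) (by omega) (by omega) h,
    gpv_ind h6 h2 (e := 2 * j + 1) hc hlc (by omega) (by omega) (by omega) (by omega) h]
  by_cases hcc : c = lc i' ∧ n = n'
  · obtain ⟨a1, a2⟩ := hcc
    simp only [a1, a2, true_and]
    rcases hj with hj | hj <;> rcases hrho with h0 | h0 <;> rw [hj, h0] <;> cases s <;>
      simp [jj, sg]
  · rw [if_neg (fun h => hcc ⟨h.1, h.2.1⟩), if_neg (fun h => hcc ⟨h.1, h.2.1⟩),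
      if_neg (fun h => hcc ⟨h.1, h.2.1⟩), sub_zero]

/-- module GPV -/
theorem gpv (h1 : T_GVL) (h2 : T_LNS) (h3 : T_ZON) (h4 : T_GSZ) (h5 : T_PRE) (h6 : T_APD)
    (h7 : T_SLT) : T_GPV := by
  intro d P
  have hlc : ∀ i, lc i = 1 ∨ lc i = 3 := fun i => (h2.2.2.2.2.2.1 0 i 0 0 true (Or.inl rfl)).2.2
  have hrho : ∀ i, rho i = 0 ∨ rho i = 1 :=
    fun i => (h2.2.2.2.2.2.1 0 i 0 0 true (Or.inl rfl)).2.1
  have hlc1 : ∀ i, i = 2 ^ lg i → lc i = 1 := fun i h => by unfold lc; rw [if_pos h]
  have hlc3 : ∀ i, i ≠ 2 ^ lg i → lc i = 3 := fun i h => by unfold lc; rw [if_neg h]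
  have hrho1 : ∀ i, i = 2 ^ lg i → rho i = (lg i : ℤ) % 2 :=
    fun i h => by unfold rho; rw [if_pos h]
  have hrho3 : ∀ i, i ≠ 2 ^ lg i → rho i = (i : ℤ) % 2 :=
    fun i h => by unfold rho; rw [if_neg h]
  refine ⟨?_, ?_, ?_, ?_⟩
  · intro n i n' i' z hval hreg
    have hz1 := ((h3 d P).2.1 n' i' z hreg).1
    have hz2 := ((h3 d P).2.1 n' i' z hreg).2
    obtain ⟨hval', -, -, hP, -⟩ := hreg
    have hVV : ∀ r, P.VG r z = if slot n' i' ≤ r then 1 else 0 :=
      fun r => gpv_st h1 h4 P hz1 hz2 r
    have hI1 : ind (lr 1 n 4) z = if n' = n ∧ i' = 2 ^ lg i' then 1 else 0 := by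
      rw [gpv_ind h6 h2 (Or.inl rfl) (hlc i') (by norm_num) (by norm_num) (by norm_num)
        (by norm_num) hP]
      by_cases hi' : i' = 2 ^ lg i'
      · rw [hlc1 i' hi']
        by_cases hn : n' = n
        · rw [if_pos ⟨rfl, hn.symm, rfl⟩, if_pos ⟨hn, hi'⟩]
        · rw [if_neg (fun h => hn h.2.1.symm), if_neg (fun h => hn h.1)]
      · rw [hlc3 i' hi', if_neg (fun h => by norm_num at h), if_neg (fun h => hi' h.2)]
    have hI3 : ind (lr 3 n 4) z = if n' = n ∧ i' ≠ 2 ^ lg i' then 1 else 0 := by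
      rw [gpv_ind h6 h2 (Or.inr rfl) (hlc i') (by norm_num) (by norm_num) (by norm_num)
        (by norm_num) hP]
      by_cases hi' : i' = 2 ^ lg i'
      · rw [hlc1 i' hi', if_neg (fun h => by norm_num at h), if_neg (fun h => h.2 hi')]
      · rw [hlc3 i' hi']
        by_cases hn : n' = n
        · rw [if_pos ⟨rfl, hn.symm, rfl⟩, if_pos ⟨hn, hi'⟩]
        · rw [if_neg (fun h => hn h.2.1.symm), if_neg (fun h => hn h.1)]
    by_cases hn : n' = n
    · subst hn
      have hs : 1 ≤ slot n' i := gpv_slot_pos hval.1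
      by_cases hi : i = 2 ^ lg i
      · by_cases hi' : i' = 2 ^ lg i'
        · unfold Pos.pmg
          rw [if_pos hi, hI1, if_pos ⟨rfl, hi'⟩, hVV, hVV]
          rcases lt_trichotomy i' i with h | h | h
          · have h1 := gpv_slot_lt (n := n') h
            rw [if_pos (by omega), if_pos (by omega), if_neg (by omega),
              if_pos ⟨rfl, hi, hi', h⟩]
            rw [gpv_lvl hi, gpv_lvl hi']
            unfold s1 s2
            rw [gpv_lvl hi']
            push_cast
            ring
          · subst h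
            rw [if_pos (by omega), if_neg (by omega), if_pos ⟨rfl, rfl⟩]
            unfold s1 s2 s3
            push_cast
            ring
          · have h1 := gpv_slot_lt (n := n') h
            rw [if_neg (by omega), if_neg (by omega), if_neg (by omega), if_neg (by omega)]
            push_cast
            ring
        · have hne : i' ≠ i := fun h => hi' (h ▸ hi)
          unfold Pos.pmg
          rw [if_pos hi, hI1, if_neg (fun h => hi' h.2), if_neg (fun h => hne h.2),
            if_neg (fun h => hi' h.2.2.1)]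
          ring
      · by_cases hi' : i' = 2 ^ lg i'
        · have hne : i' ≠ i := fun h => hi (h ▸ hi')
          unfold Pos.pmg
          rw [if_neg hi, hI3, if_neg (fun h => h.2 hi'), if_neg (fun h => hne h.2),
            if_neg (fun h => hi h.2.1)]
          ring
        · unfold Pos.pmg
          rw [if_neg hi, hI3, if_pos ⟨rfl, hi'⟩, hVV, hVV]
          rcases lt_trichotomy i' i with h | h | h
          · have h1 := gpv_slot_lt (n := n') h
            rw [if_pos (by omega), if_pos (by omega), if_neg (by omega),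
              if_neg (fun h => hi h.2.1)]
            push_cast
            ring
          · subst h
            rw [if_pos (by omega), if_neg (by omega), if_pos ⟨rfl, rfl⟩]
            unfold s1 s2 s3
            push_cast
            ring
          · have h1 := gpv_slot_lt (n := n') h
            rw [if_neg (by omega), if_neg (by omega), if_neg (by omega),
              if_neg (fun h => hi h.2.1)]
            push_cast
            ring
    · unfold Pos.pmg
      simp only [hI1, hI3, hn, false_and, if_false]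
      split_ifs <;> ring
  · intro n i n' i' z hval hreg
    obtain ⟨hval', -, -, hP, -⟩ := hreg
    have hz : ∀ c e : ℤ, c = 1 ∨ c = 3 → 0 ≤ e → e < 4 → ind (lr c n e) z = 0 := by
      intro c e hc he0 he4
      rw [gpv_ind h6 h2 hc (hlc i') he0 (by omega) (by norm_num) (by norm_num) hP,
        if_neg (fun h => by omega)]
    unfold Pos.qmg
    rw [hz 1 (2 * ((lg i : ℤ) % 2)) (Or.inl rfl) (by omega) (by omega),
      hz 1 (2 * ((lg i : ℤ) % 2) + 1) (Or.inl rfl) (by omega) (by omega),
      hz 1 (2 * (((lg i : ℤ) + 1) % 2)) (Or.inl rfl) (by omega) (by omega),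
      hz 1 (2 * (((lg i : ℤ) + 1) % 2) + 1) (Or.inl rfl) (by omega) (by omega),
      hz 3 (2 * ((i : ℤ) % 2)) (Or.inr rfl) (by omega) (by omega),
      hz 3 (2 * ((i : ℤ) % 2) + 1) (Or.inr rfl) (by omega) (by omega)]
    split_ifs <;> ring
  · intro n i n' i' t κ s hval hval' hi' hg hκ
    have hP := (h2.2.2.2.2.2.1 n' i' t κ s hκ).1
    have hr := hrho i'
    have hjs : jj s = 0 ∨ jj s = 1 := by
      cases s
      · right; simp [jj]
      · left; simp [jj]
    have hz : ∀ c : ℤ, c = 1 ∨ c = 3 → ind (lr c n 4) (pp n' i' t κ s) = 0 := by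
      intro c hc
      rw [gpv_ind h6 h2 hc (hlc i') (by norm_num) (by norm_num) (by omega) (by omega) hP,
        if_neg (fun h => by omega)]
    unfold Pos.pmg
    rw [hz 1 (Or.inl rfl), hz 3 (Or.inr rfl)]
    split_ifs <;> ring
  · intro n i n' i' t κ s hval hval' hi1 hg hκ
    have hP := (h2.2.2.2.2.2.1 n' i' t κ s hκ).1
    obtain ⟨hzp, hzq⟩ := (h3 d P).1 n' i' t κ s hval' hi1 hg hκ
    have hV1 : ∀ r, slot n' i' ≤ r → P.VG r (pp n' i' t κ s) = 1 :=
      fun r hr => gpv_one h1 h4 P hzq hr
    have hV0 : ∀ r, r < ps n' i' → P.VG r (pp n' i' t κ s) = 0 :=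
      fun r hr => gpv_zero h1 h4 P hzp hr
    have hD : ∀ c j : ℤ, c = 1 ∨ c = 3 → j = 0 ∨ j = 1 →
        ind (lr c n (2 * j)) (pp n' i' t κ s) - ind (lr c n (2 * j + 1)) (pp n' i' t κ s) =
        if c = lc i' ∧ n = n' ∧ j = rho i' then (sg s : ℂ) else 0 :=
      fun c j hc hj => gpv_diff h6 h2 hc hj hP (hrho i') (hlc i')
    have hD1 := hD 1 ((lg i : ℤ) % 2) (Or.inl rfl) (by omega)
    have hD2 := hD 1 (((lg i : ℤ) + 1) % 2) (Or.inl rfl) (by omega)
    have hD3 := hD 3 ((i : ℤ) % 2) (Or.inr rfl) (by omega)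
    unfold Pos.qmg
    rw [hD1, hD2, hD3]
    have hpsn : 1 ≤ ps n' i' := (h5.2.1 n' i' hval' hi1).2.2.1
    by_cases hn : n' = n
    · subst hn
      have hs : 1 ≤ slot n' i := gpv_slot_pos hval.1
      by_cases hi : i = 2 ^ lg i
      · rw [if_pos hi]
        by_cases hi' : i' = 2 ^ lg i'
        · have hl := hlc1 i' hi'
          have hr := hrho1 i' hi'
          rw [hl, hr, gpv_lvl hi, gpv_lvl hi']
          rcases lt_trichotomy i' i with h | h | h
          · have h8 := gpv_slot_lt (n := n') h
            have c1 : ¬ (n' = n' ∧ i' = i) := fun hh => by omega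
            have c2 : n' = n' ∧ i = 2 ^ lg i ∧ i' = 2 ^ lg i' ∧ i' < i := ⟨rfl, hi, hi', h⟩
            rw [hV1 (slot n' i) (by omega), hV1 (slot n' i - 1) (by omega),
              if_neg c1, if_pos c2]
            by_cases hp : (lg i : ℤ) % 2 = (lg i' : ℤ) % 2
            · rw [if_pos ⟨rfl, rfl, hp⟩, if_neg (fun h => by omega)]
              push_cast
              ring
            · rw [if_neg (fun h => hp h.2.2), if_pos ⟨rfl, rfl, by omega⟩]
              push_cast
              ring
          · subst h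
            rw [hV1 (slot n' i') (by omega), if_pos ⟨rfl, rfl, rfl⟩,
              if_neg (fun h => by omega), if_pos ⟨rfl, rfl⟩]
            push_cast
            ring
          · have hlt : lg i < lg i' := by
              by_contra hcon
              have : 2 ^ lg i' ≤ 2 ^ lg i := Nat.pow_le_pow_right (by norm_num) (by omega)
              omega
            rw [if_neg (show ¬ (n' = n' ∧ i' = i) by omega),
              if_neg (show ¬ (n' = n' ∧ i = 2 ^ lg i ∧ i' = 2 ^ lg i' ∧ i' < i) by omega)]
            have hps : ps n' i' = slot n' (2 ^ (lg i' - 1)) := by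
              unfold ps
              have h9 : n' < 2 ^ (lg i' - 1) := lt_of_lt_of_le hval.2
                (Nat.pow_le_pow_right (by norm_num) (by omega))
              rw [if_pos hi', if_pos h9]
            by_cases hp : (lg i : ℤ) % 2 = (lg i' : ℤ) % 2
            · rw [if_pos ⟨rfl, rfl, hp⟩, if_neg (fun h => by omega)]
              have h10 : i < 2 ^ (lg i' - 1) := by
                rw [hi]
                exact Nat.pow_lt_pow_right (by norm_num) (by omega)
              have h11 := gpv_slot_lt (n := n') h10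
              rw [hV0 (slot n' i) (by rw [hps]; exact h11)]
              push_cast
              ring
            · rw [if_neg (fun h => hp h.2.2), if_pos ⟨rfl, rfl, by omega⟩]
              have h10 : i ≤ 2 ^ (lg i' - 1) := by
                rw [hi]
                exact Nat.pow_le_pow_right (by norm_num) (by omega)
              have h11 := gpv_slot_le (n := n') h10
              rw [hV0 (slot n' i - 1) (by rw [hps]; omega)]
              push_cast
              ring
        · have hl := hlc3 i' hi'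
          have hne : i' ≠ i := fun h => hi' (h ▸ hi)
          rw [hl, if_neg (fun h => by norm_num at h), if_neg (fun h => by norm_num at h),
            if_neg (fun h => hne h.2), if_neg (fun h => hi' h.2.2.1)]
          ring
      · rw [if_neg hi]
        by_cases hi' : i' = 2 ^ lg i'
        · have hl := hlc1 i' hi'
          have hne : i' ≠ i := fun h => hi (h ▸ hi')
          rw [hl, if_neg (fun h => by norm_num at h), if_neg (fun h => hne h.2),
            if_neg (fun h => hi h.2.1)]
          ring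
        · have hl := hlc3 i' hi'
          have hr := hrho3 i' hi'
          have hpi' : ps n' i' = slot n' (i' - 1) := by
            unfold ps
            rw [if_neg hi']
          have hpi : ps n' i = slot n' (i - 1) := by
            unfold ps
            rw [if_neg hi]
          rw [hl, hr]
          by_cases he : i' = i
          · subst he
            rw [if_pos ⟨rfl, rfl, rfl⟩, if_pos ⟨rfl, rfl⟩, hV1 (slot n' i') le_rfl,
              hV0 (ps n' i' - 1) (by omega)]
            push_cast
            ring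
          · rw [if_neg (show ¬ (n' = n' ∧ i' = i) from fun h => he h.2),
              if_neg (show ¬ (n' = n' ∧ i = 2 ^ lg i ∧ i' = 2 ^ lg i' ∧ i' < i) from
                fun h => hi h.2.1)]
            by_cases hp : (i : ℤ) % 2 = (i' : ℤ) % 2
            · rcases lt_or_gt_of_ne he with h | h
              · have h8 := gpv_slot_lt (n := n') (show i' < i - 1 by omega)
                have h9 := gpv_slot_lt (n := n') h
                rw [hV1 (slot n' i) (by omega), hV1 (ps n' i - 1) (by rw [hpi]; omega)]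
                push_cast
                ring
              · have h8 := gpv_slot_lt (n := n') (show i < i' - 1 by omega)
                have h9 := gpv_slot_le (n := n') (show i - 1 ≤ i by omega)
                rw [hV0 (slot n' i) (by rw [hpi']; omega),
                  hV0 (ps n' i - 1) (by rw [hpi, hpi']; omega)]
                push_cast
                ring
            · rw [if_neg (fun h => hp h.2.2)]
              ring
    · have hn' : ¬ n = n' := fun h => hn h.symm
      simp only [hn, hn', false_and, and_false, if_false]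
      split_ifs <;> ring

end Pool.Agent.H41.GT
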