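import Pool.Agent.H93.GT.Targets

/-! module GSV of the dichotomy for the synthesis property (MP_de9001_an) -/

namespace Pool.Agent.H41.GT

open Pool.Agent.H93.GT Pool.Agent.H87.Synth Pool.Agent.H85.SC Finset
open Pool.Agent.H93.ET (sg jj iE iA T_KKL T_CUT T_BRK T_SER T_CRI)
open Filter Topology

/-- module GSV -/
theorem gsv (h1 : T_GVL) (h2 : T_GSZ) (h3 : T_MUL) : T_GSV := by
  classical
  intro d P S Λ hK x hx
  have e1 : ∀ z, coeff x z * Λ (ex z) = 0 := by
    intro z
    by_cases hz : ∃ c, z ∈ P.cls S c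
    · obtain ⟨c, hc⟩ := hz
      rw [hx z c hc, zero_mul]
    · rw [hK.2 z fun c hc => hz ⟨c, hc⟩, mul_zero]
  have e2 : ∀ N : ℕ, Λ (fejer N x) = 0 := by
    intro N
    rw [fejer_eq, map_smul, map_sum]
    simp only [map_sum, map_smul, smul_eq_mul, e1, Finset.sum_const_zero, mul_zero]
  have e3 := (Λ.continuous.tendsto x).comp (tendsto_fejer x)
  have e4 : Tendsto (fun N : ℕ => Λ (fejer N x)) atTop (𝓝 (Λ x)) := e3
  simp only [e2] at e4
  exact (tendsto_nhds_unique e4 tendsto_const_nhds)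

end Pool.Agent.H41.GT
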