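import Pool.Agent.H41.GT.El

/-!
The letters: linear elements `ρ - ρ⁻¹ Π` and their adjugates.
-/

namespace H41GT

open Polynomial Matrix

variable {E : Type*} [Field E] {q : ℕ}

/-- The parameters of the letters. -/
structure Good (q : ℕ) (ρ : E) : Prop where
  nrm : ρ * ρ ^ q * ρ ^ q ^ 2 = 1
  eqn : (ρ ^ 2) ^ q * ρ ^ 2 + ρ ^ 2 + 1 = 0
  vec : ∃ h : E, h ≠ 0 ∧ h ^ q * (ρ ^ q * ρ) = h

/-- The letter `ρ - ρ⁻¹ Π`. -/
noncomputable def sm (q : ℕ) (ρ : E) : Matrix (Fin 3) (Fin 3) E[X] :=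
  mon q ρ 0 - mon q ρ⁻¹ 1

/-- The adjugate of the letter. -/
noncomputable def tm (q : ℕ) (ρ : E) : Matrix (Fin 3) (Fin 3) E[X] :=
  mon q ρ⁻¹ 0 + mon q (ρ⁻¹ * ρ ^ q ^ 2) 1 + mon q (ρ⁻¹ * (ρ ^ q)⁻¹) 2

theorem Good.ne {ρ : E} (hρ : Good q ρ) : ρ ≠ 0 := by
  intro h
  have := hρ.nrm
  rw [h] at this
  simp at this

theorem Good.q2 {ρ : E} (hρ : Good q ρ) : ρ ^ q ^ 2 = ρ⁻¹ * (ρ ^ q)⁻¹ := by
  have h0 := hρ.ne
  have h1 : ρ ^ q ≠ 0 := pow_ne_zero _ h0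
  have := hρ.nrm
  field_simp
  linear_combination this

theorem sm_gr (h : Fr E q) (ρ : E) : Gr q (sm q ρ) := (mon_gr h _ _).sub h (mon_gr h _ _)

theorem tm_gr (h : Fr E q) (ρ : E) : Gr q (tm q ρ) :=
  ((mon_gr h _ _).add h (mon_gr h _ _)).add h (mon_gr h _ _)

theorem mon_add (h : Fr E q) (a b : E) (n : ℕ) : mon q (a + b) n = mon q a n + mon q b n := by
  ext1 i j
  simp only [mon, el_add h, Matrix.add_apply, C_add]
  ring

theorem mon_neg (h : Fr E q) (a : E) (n : ℕ) : mon q (-a) n = -mon q a n := by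
  ext1 i j
  simp only [mon, el_neg h, Matrix.neg_apply, C_neg]
  ring

theorem mon_sub (h : Fr E q) (a b : E) (n : ℕ) : mon q (a - b) n = mon q a n - mon q b n := by
  rw [sub_eq_add_neg, mon_add h, mon_neg h, sub_eq_add_neg]

theorem mon_zero (h : Fr E q) (n : ℕ) : mon q (0 : E) n = 0 := by
  ext1 i j
  simp [mon, el_zero h]

/-- The product of a letter and the adjugate of another one. -/
theorem sm_tm (h : Fr E q) (a b : E) (hb : Good q b) :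
    sm q a * tm q b = mon q (a * b⁻¹) 0 + mon q (a * (b⁻¹ * b ^ q ^ 2) - a⁻¹ * (b ^ q)⁻¹) 1
      + mon q (a * (b⁻¹ * (b ^ q)⁻¹) - a⁻¹ * ((b ^ q)⁻¹ * b)) 2 - mon q (a⁻¹ * b) 3 := by
  have e1 : (b⁻¹) ^ q = (b ^ q)⁻¹ := by rw [inv_pow]
  have e2 : (b⁻¹ * b ^ q ^ 2) ^ q = (b ^ q)⁻¹ * b := by
    rw [mul_pow, inv_pow, ← pow_mul, ← pow_succ, h.per]
  have e3 : (b⁻¹ * (b ^ q)⁻¹) ^ q = b := by
    rw [← hb.q2, ← pow_mul, ← pow_succ, h.per]
  simp only [sm, tm, sub_mul, mul_add, mon_mul h, pow_zero, pow_one, zero_add, mon_sub h, e1, e2,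
    e3]
  norm_num
  abel

theorem sm_tm_self (h : Fr E q) (a : E) (ha : Good q a) :
    sm q a * tm q a = ((1 - X ^ 3 : E[X])) • (1 : Matrix (Fin 3) (Fin 3) E[X]) := by
  have h0 := ha.ne
  have h1 : a ^ q ≠ 0 := pow_ne_zero _ h0
  rw [sm_tm h a a ha, ha.q2]
  have e0 : a * a⁻¹ = 1 := mul_inv_cancel₀ h0
  have e1 : a * (a⁻¹ * (a⁻¹ * (a ^ q)⁻¹)) - a⁻¹ * (a ^ q)⁻¹ = 0 := by
    field_simp
    ring
  have e2 : a * (a⁻¹ * (a ^ q)⁻¹) - a⁻¹ * ((a ^ q)⁻¹ * a) = 0 := by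
    field_simp
    ring
  have e3 : a⁻¹ * a = 1 := inv_mul_cancel₀ h0
  rw [e0, e1, e2, e3, mon_zero h, mon_zero h, mon_one]
  have := mon_X3 (E := E) (q := q) 1
  rw [mul_one] at this
  rw [this, add_zero, add_zero, sub_smul, one_smul]

theorem sm_det (a : E) (ha : Good q a) : (sm q a).det = 1 - X ^ 3 := by
  have n1 := ha.nrm
  have n2 : a⁻¹ * (a⁻¹) ^ q * (a⁻¹) ^ q ^ 2 = 1 := by
    rw [inv_pow, inv_pow, ← mul_inv, ← mul_inv, n1, inv_one]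
  have m1 : C a * C (a ^ q) * C (a ^ q ^ 2) = (1 : E[X]) := by
    rw [← C_mul, ← C_mul, n1, C_1]
  have m2 : C a⁻¹ * C (a⁻¹ ^ q) * C (a⁻¹ ^ q ^ 2) = (1 : E[X]) := by
    rw [← C_mul, ← C_mul, n2, C_1]
  have e : sm q a = !![C a, -C a⁻¹ * X, 0; 0, C (a ^ q), -C (a⁻¹ ^ q) * X;
      -C (a⁻¹ ^ q ^ 2) * X, 0, C (a ^ q ^ 2)] := by
    ext1 i j
    fin_cases i <;> fin_cases j <;> simp [sm, mon, el, Matrix.sub_apply]
  rw [e, Matrix.det_fin_three]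
  simp only [Matrix.of_apply, Matrix.cons_val_zero, Matrix.cons_val_one, Matrix.cons_val]
  linear_combination m1 - X ^ 3 * m2

theorem one_sub_ne : (1 - X ^ 3 : E[X]) ≠ 0 := by
  intro h
  have := congrArg (eval 0) h
  simp at this

theorem tm_sm_self (h : Fr E q) (a : E) (ha : Good q a) :
    tm q a * sm q a = ((1 - X ^ 3 : E[X])) • (1 : Matrix (Fin 3) (Fin 3) E[X]) := by
  have h0 := ha.ne
  have h1 : a ^ q ≠ 0 := pow_ne_zero _ h0
  have q2 := ha.q2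
  have e1 : (a⁻¹) ^ q ^ 2 = a * a ^ q := by
    rw [inv_pow, q2, mul_inv, inv_inv, inv_inv]
  simp only [sm, tm, mul_sub, add_mul, mon_mul h, pow_zero, pow_one, add_zero, inv_pow, q2]
  have k0 : a⁻¹ * a = 1 := inv_mul_cancel₀ h0
  have k1 : a⁻¹ * (a⁻¹ * (a ^ q)⁻¹) * a ^ q = a⁻¹ * a⁻¹ := by
    field_simp
  have k2 : a⁻¹ * (a ^ q)⁻¹ * (a⁻¹ * (a ^ q)⁻¹) = a⁻¹ * (a⁻¹ * (a ^ q)⁻¹) * (a ^ q)⁻¹ := by
    ring
  have k3 : a⁻¹ * (a ^ q)⁻¹ * (a⁻¹ * (a ^ q)⁻¹)⁻¹ = 1 := by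
    rw [mul_inv_cancel₀]
    exact mul_ne_zero (inv_ne_zero h0) (inv_ne_zero h1)
  rw [k0, k1, k2, k3, mon_one]
  have := mon_X3 (E := E) (q := q) 1
  rw [mul_one] at this
  norm_num
  rw [this, sub_smul, one_smul]
  abel

theorem tm_det (h : Fr E q) (a : E) (ha : Good q a) : (tm q a).det = (1 - X ^ 3) ^ 2 := by
  have h1 := congrArg Matrix.det (sm_tm_self h a ha)
  rw [Matrix.det_mul, sm_det a ha, Matrix.det_smul, Matrix.det_one, mul_one, Fintype.card_fin] at h1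
  apply mul_left_cancel₀ (one_sub_ne (E := E))
  rw [h1]
  ring

/-- Transpose and reversal. -/
noncomputable def rv (N : ℕ) (A : Matrix (Fin 3) (Fin 3) E[X]) : Matrix (Fin 3) (Fin 3) E[X] :=
  fun i j => (A j i).reflect N

theorem rv_add (N : ℕ) (A B : Matrix (Fin 3) (Fin 3) E[X]) :
    rv N (A + B) = rv N A + rv N B := by
  ext1 i j
  simp [rv, reflect_add]

theorem rv_neg (N : ℕ) (A : Matrix (Fin 3) (Fin 3) E[X]) : rv N (-A) = -rv N A := by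
  ext1 i j
  simp [rv, reflect_neg]

theorem rv_sub (N : ℕ) (A B : Matrix (Fin 3) (Fin 3) E[X]) :
    rv N (A - B) = rv N A - rv N B := by
  rw [sub_eq_add_neg, rv_add, rv_neg, sub_eq_add_neg]

theorem rv_mul {M N : ℕ} {A B : Matrix (Fin 3) (Fin 3) E[X]}
    (hA : ∀ i j, (A i j).natDegree ≤ M) (hB : ∀ i j, (B i j).natDegree ≤ N) :
    rv (M + N) (A * B) = rv N B * rv M A := by
  ext1 i j
  simp only [rv, Matrix.mul_apply]
  have : ∀ s : Finset (Fin 3), (∑ k ∈ s, A j k * B k i).reflect (M + N) =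
      ∑ k ∈ s, (B k i).reflect N * (A j k).reflect M := by
    intro s
    classical
    induction s using Finset.induction_on with
    | empty => simp
    | insert a s ha ih =>
      rw [Finset.sum_insert ha, Finset.sum_insert ha, reflect_add, ih,
        reflect_mul _ _ (hA _ _) (hB _ _), mul_comm]
  exact this _

theorem rv_mon (h : Fr E q) (a : E) (n : ℕ) (hn : n ≤ 3) :
    rv 3 (mon q a n) = mon q (a ^ q ^ (3 - n)) (3 - n) := by
  ext1 i j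
  simp only [rv, mon, reflect_C_mul_X_pow]
  rw [revAt_le hn]
  have : el q a n j i = el q (a ^ q ^ (3 - n)) (3 - n) i j := by
    simp only [el]
    by_cases hij : (i : ℕ) = ((j : ℕ) + n) % 3
    · have hji : (j : ℕ) = ((i : ℕ) + (3 - n)) % 3 := by omega
      rw [if_pos hij, if_pos hji, ← pow_mul, ← pow_add]
      conv_lhs => rw [hji]
      rw [h.per_mod, Nat.add_comm]
    · have hji : ¬ (j : ℕ) = ((i : ℕ) + (3 - n)) % 3 := by omega
      rw [if_neg hij, if_neg hji]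
  rw [this]

theorem rv_pair (h : Fr E q) (a b : E) (ha : Good q a) (hb : Good q b) :
    rv 3 (sm q a * tm q b) = -(sm q b * tm q a) := by
  rw [sm_tm h a b hb, sm_tm h b a ha, rv_sub, rv_add, rv_add, rv_mon h _ _ (by norm_num),
    rv_mon h _ _ (by norm_num), rv_mon h _ _ (by norm_num), rv_mon h _ _ (by norm_num)]
  have a0 := ha.ne
  have a1 : a ^ q ≠ 0 := pow_ne_zero _ a0
  have b0 := hb.ne
  have b1 : b ^ q ≠ 0 := pow_ne_zero _ b0
  have ea : a ^ q * a ^ q * a ^ 2 = - a ^ 2 - 1 := by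
    have := ha.eqn
    rw [← pow_mul, mul_comm 2 q, pow_mul, pow_two (a ^ q)] at this
    linear_combination this
  have eb : b ^ q * b ^ q * b ^ 2 = - b ^ 2 - 1 := by
    have := hb.eqn
    rw [← pow_mul, mul_comm 2 q, pow_mul, pow_two (b ^ q)] at this
    linear_combination this
  have f0 : (a * b⁻¹) ^ q ^ (3 - 0) = b⁻¹ * a := by
    rw [Nat.sub_zero, h.per, mul_comm]
  have f3 : (a⁻¹ * b) ^ q ^ (3 - 3) = b * a⁻¹ := by
    rw [Nat.sub_self, pow_zero, pow_one, mul_comm]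
  have f1 : (a * (b⁻¹ * b ^ q ^ 2) - a⁻¹ * (b ^ q)⁻¹) ^ q ^ (3 - 1) =
      -(b * (a⁻¹ * (a ^ q)⁻¹) - b⁻¹ * ((a ^ q)⁻¹ * a)) := by
    have g1 : (b ^ q ^ 2) ^ q ^ 2 = b ^ q := by
      rw [← pow_mul, ← pow_add, ← h.per_mod]
      norm_num
    have g2 : (b ^ q) ^ q ^ 2 = b := by
      rw [← pow_mul, ← pow_succ', h.per]
    rw [show 3 - 1 = 2 from rfl, h.sub_pow, mul_pow, mul_pow, mul_pow, inv_pow, inv_pow, inv_pow,
      g1, g2, ha.q2, hb.q2]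
    field_simp
    linear_combination eb - ea
  have f2 : (a * (b⁻¹ * (b ^ q)⁻¹) - a⁻¹ * ((b ^ q)⁻¹ * b)) ^ q ^ (3 - 2) =
      -(b * (a⁻¹ * a ^ q ^ 2) - b⁻¹ * (a ^ q)⁻¹) := by
    have g1 : (b ^ q) ^ q = b⁻¹ * (b ^ q)⁻¹ := by
      rw [← pow_mul, ← pow_two, hb.q2]
    have := h.sub_pow 1 (a * (b⁻¹ * (b ^ q)⁻¹)) (a⁻¹ * ((b ^ q)⁻¹ * b))
    rw [pow_one] at this
    rw [show 3 - 2 = 1 from rfl, pow_one, this, mul_pow, mul_pow, mul_pow, mul_pow, inv_pow,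
      inv_pow, inv_pow, g1, ha.q2]
    field_simp
    linear_combination (b ^ 2) * ea - (a ^ 2) * eb
  rw [f0, f1, f2, f3, mon_neg h, mon_neg h]
  norm_num
  abel

end H41GT
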