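import Pool.Agent.H41.GT.Word

/-!
A word with `n` pairs of letters is not congruent to `1` modulo `Π ^ r` if `1 ≤ n ≤ 2 r`.
-/

namespace H41GT

open Polynomial Matrix

variable {E : Type*} [Field E] {q : ℕ}

theorem gr_scalar (h : Fr E q) (n : ℕ) :
    Gr q (((1 - X ^ 3) ^ n : E[X]) • (1 : Matrix (Fin 3) (Fin 3) E[X])) := by
  have h1 : ((1 - X ^ 3 : E[X]) • (1 : Matrix (Fin 3) (Fin 3) E[X])) =
      mon q (1 : E) 0 - mon q (1 : E) 3 := by
    have := mon_X3 (E := E) (q := q) 1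
    rw [mul_one] at this
    rw [this, mon_one, sub_smul, one_smul]
  induction n with
  | zero => simpa using gr_one h
  | succ n ih =>
    have h2 : (((1 - X ^ 3) ^ (n + 1) : E[X]) • (1 : Matrix (Fin 3) (Fin 3) E[X])) =
        (((1 - X ^ 3) ^ n : E[X]) • (1 : Matrix (Fin 3) (Fin 3) E[X])) *
        ((1 - X ^ 3 : E[X]) • (1 : Matrix (Fin 3) (Fin 3) E[X])) := by
      rw [Matrix.smul_mul, Matrix.one_mul, smul_smul, pow_succ]
    rw [h2]
    refine ih.mul h ?_
    rw [h1]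
    exact (mon_gr h _ _).sub h (mon_gr h _ _)

theorem exists_smul {Y : Matrix (Fin 3) (Fin 3) E[X]} {m : ℕ}
    (hY : ∀ i j, (X ^ m : E[X]) ∣ Y i j) :
    ∃ Z : Matrix (Fin 3) (Fin 3) E[X], Y = (X ^ m : E[X]) • Z := by
  choose Z hZ using hY
  refine ⟨Matrix.of Z, ?_⟩
  ext1 i j
  rw [hZ, Matrix.smul_apply, smul_eq_mul, Matrix.of_apply]

theorem det_dvd {Y : Matrix (Fin 3) (Fin 3) E[X]} {m : ℕ}
    (hY : ∀ i j, (X ^ m : E[X]) ∣ Y i j) : (X ^ (3 * m) : E[X]) ∣ Y.det := by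
  obtain ⟨Z, rfl⟩ := exists_smul hY
  rw [Matrix.det_smul, Fintype.card_fin, ← pow_mul, mul_comm m 3]
  exact dvd_mul_right _ _

theorem det_ne (h : Fr E q) {Y : Matrix (Fin 3) (Fin 3) E[X]} (hg : Gr q Y) (h0 : Y ≠ 0) :
    Y.det ≠ 0 := by
  classical
  have hex : ∃ n, ∃ i j, (Y i j).coeff n ≠ 0 := by
    by_contra hcon
    push Not at hcon
    apply h0
    ext1 i j
    ext n
    simpa using hcon n i j
  obtain ⟨m, ⟨i, j, hij⟩, hmin⟩ : ∃ m, (∃ i j, (Y i j).coeff m ≠ 0) ∧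
      ∀ k, k < m → ∀ i j, (Y i j).coeff k = 0 := by
    refine ⟨Nat.find hex, Nat.find_spec hex, fun k hk i j => ?_⟩
    have := Nat.find_min hex hk
    push Not at this
    exact this i j
  have hdvd : ∀ i j, (X ^ m : E[X]) ∣ Y i j := by
    intro i j
    rw [X_pow_dvd_iff]
    intro d hd
    exact hmin d hd i j
  obtain ⟨Z, hZ⟩ := exists_smul hdvd
  obtain ⟨a, ha⟩ := hg m
  have ha0 : a ≠ 0 := by
    intro h'
    apply hij
    rw [ha, h', el_zero h]
    rfl
  have hZ0 : (evalRingHom (0 : E)).mapMatrix Z = el q a m := by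
    ext i j
    rw [← ha i j, hZ, Matrix.smul_apply, smul_eq_mul]
    have := coeff_X_pow_mul (Z i j) m 0
    rw [zero_add] at this
    rw [this, RingHom.mapMatrix_apply, Matrix.map_apply, coe_evalRingHom, ← coeff_zero_eq_eval_zero]
  have hdet : eval 0 Z.det = a * a ^ q * a ^ q ^ 2 := by
    rw [← el_det a m, ← hZ0, ← RingHom.map_det]
    rfl
  have hne : Z.det ≠ 0 := by
    intro h'
    rw [h', eval_zero] at hdet
    exact (mul_ne_zero (mul_ne_zero ha0 (pow_ne_zero _ ha0)) (pow_ne_zero _ ha0)) hdet.symm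
  rw [hZ, Matrix.det_smul]
  exact mul_ne_zero (pow_ne_zero _ (pow_ne_zero _ X_ne_zero)) hne

theorem trace_rv (A : Matrix (Fin 3) (Fin 3) E[X]) (N : ℕ) :
    (rv N A).trace = A.trace.reflect N := by
  rw [Matrix.trace_fin_three, Matrix.trace_fin_three, reflect_add, reflect_add]
  rfl

theorem trace_deg {A : Matrix (Fin 3) (Fin 3) E[X]} {N : ℕ} (hA : ∀ i j, (A i j).natDegree ≤ N) :
    A.trace.natDegree ≤ N := by
  rw [Matrix.trace_fin_three]
  exact (natDegree_add_le _ _).trans (max_le ((natDegree_add_le _ _).trans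
    (max_le (hA _ _) (hA _ _))) (hA _ _))

/-- The main point. -/
theorem no_word (h : Fr E q) (h2 : (2 : E) ≠ 0) (a b : ℕ → E) (ha : ∀ i, Good q (a i))
    (hb : ∀ i, Good q (b i)) (hab : ∀ i, a i ≠ b i) (hba : ∀ i, b i ≠ a (i + 1)) (n r : ℕ)
    (hn : 1 ≤ n) (hnr : n ≤ 2 * r) :
    ¬ ∀ i j, (X ^ r : E[X]) ∣
      (wp q a b n - ((1 - X ^ 3) ^ n : E[X]) • (1 : Matrix (Fin 3) (Fin 3) E[X])) i j := by
  intro hX
  set Y := wp q a b n - ((1 - X ^ 3) ^ n : E[X]) • (1 : Matrix (Fin 3) (Fin 3) E[X]) with hY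
  have hg : Gr q Y := (wp_gr h a b n).sub h (gr_scalar h n)
  have hY0 : Y ≠ 0 := by
    intro h0
    obtain ⟨m, rfl⟩ : ∃ m, n = m + 1 := ⟨n - 1, by omega⟩
    obtain ⟨z, hz0, hz⟩ := (ha m).vec
    apply ev_wp_ne h h2 a b ha hb hab hba (m + 1) (a m) z (ha m)
      (fun k hk => by
        have : k = m := by omega
        subst this
        exact (hab k).symm) hz0 hz
    have h3 : wp q a b (m + 1) = ((1 - X ^ 3) ^ (m + 1) : E[X]) • 1 := sub_eq_zero.mp h0
    rw [h3]
    have : ev (((1 - X ^ 3) ^ (m + 1) : E[X]) • (1 : Matrix (Fin 3) (Fin 3) E[X])) = 0 := by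
      ext i j
      simp [ev]
    rw [this, Matrix.zero_mulVec]
  have hdet := det_word h a b ha hb n
  rw [← hY] at hdet
  have hdne := det_ne h hg hY0
  have hddvd := det_dvd hX
  set T := (wp q a b n).trace with hT
  set T' := (wr q a b n).trace with hT'
  set P := T - T' with hP
  have hPne : P ≠ 0 := by
    intro h0
    rw [h0, mul_zero] at hdet
    exact hdne hdet
  have hPdvd : (X ^ (3 * r) : E[X]) ∣ P := by
    rw [hdet] at hddvd
    refine IsCoprime.dvd_of_dvd_mul_left ?_ hddvd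
    apply IsCoprime.pow_left
    apply IsCoprime.pow_right
    exact ⟨X ^ 2, 1, by ring⟩
  -- the symmetry
  have hTr : ((-1) ^ n : E[X]) * T' = T.reflect (3 * n) := by
    have := congrArg Matrix.trace (rv_wp h a b ha hb n)
    rw [trace_rv, Matrix.trace_smul, smul_eq_mul] at this
    exact this.symm
  have hTdeg : T.natDegree ≤ 3 * n := trace_deg (wp_deg a b n)
  have hTdeg' : T'.natDegree ≤ 3 * n := trace_deg (wr_deg a b n)
  have hsym : ∀ i, i ≤ 3 * n → ((-1) ^ n : E) * T'.coeff i = T.coeff (3 * n - i) := by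
    intro i hi
    have h1 := congrArg (fun p => coeff p i) hTr
    simp only [coeff_reflect] at h1
    rw [revAt_le hi, ← C_1, ← C_neg, ← C_pow, coeff_C_mul] at h1
    exact h1
  have hsgn : ((-1) ^ n : E) * (-1) ^ n = 1 := by
    rw [← mul_pow]; simp
  have hPc : ∀ i, i ≤ 3 * n → P.coeff (3 * n - i) = -(-1) ^ n * P.coeff i := by
    intro i hi
    have h1 := hsym i hi
    have h2 := hsym (3 * n - i) (by omega)
    rw [show 3 * n - (3 * n - i) = i by omega] at h2
    rw [hP, coeff_sub, coeff_sub]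
    linear_combination (-1 : E) * h1 - (-1) ^ n * h2 + (T'.coeff (3 * n - i)) * hsgn
  obtain ⟨i, hi⟩ : ∃ i, P.coeff i ≠ 0 := by
    by_contra hcon
    push Not at hcon
    exact hPne (by ext i; simpa using hcon i)
  have hlow : ∀ k, P.coeff k ≠ 0 → 3 * r ≤ k := by
    intro k hk
    by_contra hlt
    exact hk ((X_pow_dvd_iff.mp hPdvd) k (by omega))
  have hup : i ≤ 3 * n := by
    by_contra hgt
    apply hi
    rw [hP, coeff_sub, coeff_eq_zero_of_natDegree_lt (by omega),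
      coeff_eq_zero_of_natDegree_lt (by omega), sub_zero]
  have hi1 := hlow i hi
  have hi2 : P.coeff (3 * n - i) ≠ 0 := by
    rw [hPc i hup]
    refine mul_ne_zero ?_ hi
    rw [neg_ne_zero]
    exact pow_ne_zero _ (by norm_num)
  have hi3 := hlow _ hi2
  have hn2 : n = 2 * r := by omega
  have hir : 3 * n - i = i := by omega
  have h5 := hPc i hup
  rw [show 3 * n - i = i by omega, hn2, pow_mul] at h5
  norm_num at h5
  apply hi
  have h6 : (2 : E) * P.coeff i = 0 := by linear_combination h5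
  exact (mul_eq_zero.mp h6).resolve_left h2

end H41GT
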