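import Pool.Agent.H41.GT.Letter

/-!
Words in the letters.
-/

namespace H41GT

open Polynomial Matrix

variable {E : Type*} [Field E] {q : ℕ}

/-- The numerator of the word `∏ s (a i) * s (b i)⁻¹`. -/
noncomputable def wp (q : ℕ) (a b : ℕ → E) : ℕ → Matrix (Fin 3) (Fin 3) E[X]
  | 0 => 1
  | n + 1 => wp q a b n * (sm q (a n) * tm q (b n))

/-- The numerator of the inverse word. -/
noncomputable def wr (q : ℕ) (a b : ℕ → E) : ℕ → Matrix (Fin 3) (Fin 3) E[X]
  | 0 => 1
  | n + 1 => (sm q (b n) * tm q (a n)) * wr q a b n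

theorem wp_gr (h : Fr E q) (a b : ℕ → E) (n : ℕ) : Gr q (wp q a b n) := by
  induction n with
  | zero => exact gr_one h
  | succ n ih => exact ih.mul h ((sm_gr h _).mul h (tm_gr h _))

theorem wr_gr (h : Fr E q) (a b : ℕ → E) (n : ℕ) : Gr q (wr q a b n) := by
  induction n with
  | zero => exact gr_one h
  | succ n ih => exact ((sm_gr h _).mul h (tm_gr h _)).mul h ih

theorem natDegree_mul_le' {A B : Matrix (Fin 3) (Fin 3) E[X]} {M N : ℕ}
    (hA : ∀ i j, (A i j).natDegree ≤ M) (hB : ∀ i j, (B i j).natDegree ≤ N) (i j : Fin 3) :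
    ((A * B) i j).natDegree ≤ M + N := by
  rw [Matrix.mul_apply]
  apply natDegree_sum_le_of_forall_le
  intro k _
  exact natDegree_mul_le.trans (Nat.add_le_add (hA _ _) (hB _ _))

theorem mon_deg (a : E) (n : ℕ) (i j : Fin 3) : (mon q a n i j).natDegree ≤ n := by
  simp only [mon]
  exact natDegree_C_mul_X_pow_le _ _

theorem sm_deg (a : E) (i j : Fin 3) : (sm q a i j).natDegree ≤ 1 := by
  simp only [sm, Matrix.sub_apply]
  exact (natDegree_sub_le _ _).trans (max_le ((mon_deg _ _ _ _).trans (by norm_num))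
    (mon_deg _ _ _ _))

theorem tm_deg (a : E) (i j : Fin 3) : (tm q a i j).natDegree ≤ 2 := by
  simp only [tm, Matrix.add_apply]
  refine (natDegree_add_le _ _).trans (max_le ((natDegree_add_le _ _).trans (max_le ?_ ?_)) ?_)
  · exact (mon_deg _ _ _ _).trans (by norm_num)
  · exact (mon_deg _ _ _ _).trans (by norm_num)
  · exact mon_deg _ _ _ _

theorem wp_deg (a b : ℕ → E) (n : ℕ) (i j : Fin 3) : (wp q a b n i j).natDegree ≤ 3 * n := by
  induction n generalizing i j with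
  | zero =>
    simp only [wp, Matrix.one_apply]
    split_ifs <;> simp
  | succ n ih =>
    have h3 := natDegree_mul_le' (sm_deg (q := q) (a n)) (tm_deg (q := q) (b n))
    exact natDegree_mul_le' ih h3 i j

theorem wr_deg (a b : ℕ → E) (n : ℕ) (i j : Fin 3) : (wr q a b n i j).natDegree ≤ 3 * n := by
  induction n generalizing i j with
  | zero =>
    simp only [wr, Matrix.one_apply]
    split_ifs <;> simp
  | succ n ih =>
    have h3 := natDegree_mul_le' (sm_deg (q := q) (b n)) (tm_deg (q := q) (a n))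
    have := natDegree_mul_le' h3 ih i j
    refine this.trans (by omega)

theorem wp_det (h : Fr E q) (a b : ℕ → E) (ha : ∀ i, Good q (a i)) (hb : ∀ i, Good q (b i))
    (n : ℕ) : (wp q a b n).det = (1 - X ^ 3) ^ (3 * n) := by
  induction n with
  | zero => simp [wp]
  | succ n ih =>
    simp only [wp]
    rw [Matrix.det_mul, Matrix.det_mul, ih, sm_det _ (ha n), tm_det h _ (hb n)]
    ring

theorem wp_wr (h : Fr E q) (a b : ℕ → E) (ha : ∀ i, Good q (a i)) (hb : ∀ i, Good q (b i))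
    (n : ℕ) : wp q a b n * wr q a b n = ((1 - X ^ 3) ^ (2 * n) : E[X]) • 1 := by
  induction n with
  | zero => simp [wp, wr]
  | succ n ih =>
    simp only [wp, wr]
    calc wp q a b n * (sm q (a n) * tm q (b n)) * (sm q (b n) * tm q (a n) * wr q a b n)
        = wp q a b n * (sm q (a n) * (tm q (b n) * sm q (b n)) * tm q (a n)) * wr q a b n := by
          simp only [Matrix.mul_assoc]
      _ = ((1 - X ^ 3) * (1 - X ^ 3) : E[X]) • (wp q a b n * wr q a b n) := by
          rw [tm_sm_self h _ (hb n)]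
          simp only [Matrix.mul_smul, Matrix.smul_mul, Matrix.mul_one, smul_smul]
          rw [sm_tm_self h _ (ha n)]
          simp only [Matrix.mul_smul, Matrix.smul_mul, Matrix.mul_one, smul_smul]
      _ = _ := by
          rw [ih, smul_smul]
          ring_nf

theorem rv_wp (h : Fr E q) (a b : ℕ → E) (ha : ∀ i, Good q (a i)) (hb : ∀ i, Good q (b i))
    (n : ℕ) : rv (3 * n) (wp q a b n) = ((-1) ^ n : E[X]) • wr q a b n := by
  induction n with
  | zero =>
    ext1 i j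
    simp only [rv, wp, wr, Matrix.smul_apply, Matrix.one_apply, pow_zero, one_smul]
    by_cases hij : i = j
    · subst hij
      have := reflect_C (1 : E) 0
      rw [C_1, pow_zero, mul_one] at this
      simpa using this
    · rw [if_neg hij, if_neg (fun h => hij h.symm)]
      simp
  | succ n ih =>
    simp only [wp, wr]
    have h3 := natDegree_mul_le' (sm_deg (q := q) (a n)) (tm_deg (q := q) (b n))
    rw [show 3 * (n + 1) = 3 * n + (1 + 2) by ring, rv_mul (wp_deg a b n) h3, ih,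
      show 1 + 2 = 3 from rfl, rv_pair h _ _ (ha n) (hb n), Matrix.mul_smul, Matrix.neg_mul,
      smul_neg, pow_succ]
    simp

/-- The characteristic polynomial identity. -/
theorem det_sub_smul {R : Type*} [CommRing R] (A : Matrix (Fin 3) (Fin 3) R) (z : R) :
    (A - z • (1 : Matrix (Fin 3) (Fin 3) R)).det =
      A.det - z * A.adjugate.trace + z ^ 2 * A.trace - z ^ 3 := by
  rw [Matrix.det_fin_three, Matrix.det_fin_three, Matrix.adjugate_fin_three,
    Matrix.trace_fin_three, Matrix.trace_fin_three]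
  simp only [Matrix.sub_apply, Matrix.smul_apply, Matrix.one_apply, smul_eq_mul, Matrix.of_apply,
    Matrix.cons_val_zero, Matrix.cons_val_one, Matrix.cons_val]
  simp only [Fin.isValue, if_true, Fin.reduceEq, if_false, mul_one, mul_zero, sub_zero]
  ring

theorem det_word (h : Fr E q) (a b : ℕ → E) (ha : ∀ i, Good q (a i)) (hb : ∀ i, Good q (b i))
    (n : ℕ) : (wp q a b n - ((1 - X ^ 3) ^ n : E[X]) • (1 : Matrix (Fin 3) (Fin 3) E[X])).det =
      (1 - X ^ 3) ^ (2 * n) * ((wp q a b n).trace - (wr q a b n).trace) := by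
  set z : E[X] := (1 - X ^ 3) ^ n with hz
  have z0 : z ≠ 0 := pow_ne_zero _ one_sub_ne
  have hd : (wp q a b n).det = z ^ 3 := by rw [wp_det h a b ha hb, hz, ← pow_mul, mul_comm]
  have hw : wp q a b n * wr q a b n = (z ^ 2) • 1 := by
    rw [wp_wr h a b ha hb, hz, ← pow_mul, mul_comm 2 n]
  have hadj : (wp q a b n).adjugate = z • wr q a b n := by
    have h1 : (wp q a b n).adjugate * wp q a b n * wr q a b n = (z ^ 3) • wr q a b n := by
      rw [Matrix.adjugate_mul, hd, Matrix.smul_mul, Matrix.one_mul]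
    rw [Matrix.mul_assoc, hw, Matrix.mul_smul, Matrix.mul_one] at h1
    ext1 i j
    have h2 := congrFun (congrFun h1 i) j
    simp only [Matrix.smul_apply, smul_eq_mul] at h2 ⊢
    apply mul_left_cancel₀ (pow_ne_zero 2 z0)
    rw [h2]
    ring
  rw [det_sub_smul, hd, hadj, Matrix.trace_smul, smul_eq_mul]
  have : (1 - X ^ 3 : E[X]) ^ (2 * n) = z ^ 2 := by rw [hz, ← pow_mul, mul_comm]
  rw [this]
  ring

/-- Evaluation at `X = 1`. -/
noncomputable def ev (A : Matrix (Fin 3) (Fin 3) E[X]) : Matrix (Fin 3) (Fin 3) E :=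
  (evalRingHom (1 : E)).mapMatrix A

theorem ev_mul (A B : Matrix (Fin 3) (Fin 3) E[X]) : ev (A * B) = ev A * ev B :=
  map_mul _ _ _

theorem ev_mon (a : E) (n : ℕ) : ev (mon q a n) = el q a n := by
  ext i j
  simp [ev, mon]

/-- The vector attached to a field element. -/
def vc (q : ℕ) (x : E) : Fin 3 → E := fun i => x ^ q ^ (i : ℕ)

theorem vc_ne {x : E} (hx : x ≠ 0) : vc q x ≠ 0 := by
  intro h
  have := congrFun h 0
  simp [vc, hx] at this

theorem vc_add (h : Fr E q) (x y : E) : vc q (x + y) = vc q x + vc q y := by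
  ext i
  simp only [vc, Pi.add_apply]
  exact h.add_pow _ _ _

theorem vc_sub (h : Fr E q) (x y : E) : vc q (x - y) = vc q x - vc q y := by
  ext i
  simp only [vc, Pi.sub_apply]
  exact h.sub_pow _ _ _

theorem el_vc (h : Fr E q) (a x : E) (n : ℕ) : el q a n *ᵥ vc q x = vc q (a * x ^ q ^ n) := by
  ext i
  rw [Matrix.mulVec, dotProduct]
  have hk : ((i : ℕ) + n) % 3 < 3 := Nat.mod_lt _ (by norm_num)
  rw [Finset.sum_eq_single (⟨((i : ℕ) + n) % 3, hk⟩ : Fin 3)]
  · simp only [el, vc, if_true]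
    rw [h.per_mod, mul_pow, ← pow_mul, ← pow_add, Nat.add_comm (i : ℕ) n]
  · intro k _ hne
    simp only [el]
    rw [if_neg, zero_mul]
    intro h'
    exact hne (Fin.ext h')
  · intro h'
    exact absurd (Finset.mem_univ _) h'

theorem sm_vc (h : Fr E q) (a x : E) :
    ev (sm q a) *ᵥ vc q x = vc q (a * x - a⁻¹ * x ^ q) := by
  have : ev (sm q a) = el q a 0 - el q a⁻¹ 1 := by
    rw [← ev_mon, ← ev_mon]
    exact map_sub _ _ _
  rw [this, Matrix.sub_mulVec, el_vc h, el_vc h, vc_sub h]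
  simp

theorem tm_vc (h : Fr E q) (a x : E) :
    ev (tm q a) *ᵥ vc q x =
      vc q (a⁻¹ * x + a⁻¹ * a ^ q ^ 2 * x ^ q + a⁻¹ * (a ^ q)⁻¹ * x ^ q ^ 2) := by
  have : ev (tm q a) = el q a⁻¹ 0 + el q (a⁻¹ * a ^ q ^ 2) 1 + el q (a⁻¹ * (a ^ q)⁻¹) 2 := by
    rw [← ev_mon, ← ev_mon, ← ev_mon]
    simp only [ev, tm, map_add]
  rw [this, Matrix.add_mulVec, Matrix.add_mulVec, el_vc h, el_vc h, el_vc h, vc_add h, vc_add h]
  simp

theorem Good.eq' {a : E} (ha : Good q a) : a ^ q * a ^ q * a ^ 2 = - a ^ 2 - 1 := by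
  have := ha.eqn
  rw [← pow_mul, mul_comm 2 q, pow_mul, pow_two (a ^ q)] at this
  linear_combination this

theorem Good.neg_ne (h : Fr E q) (h2 : (2 : E) ≠ 0) {a : E} (ha : Good q a) : ¬ Good q (-a) := by
  intro hb
  have h1 := hb.nrm
  have e1 : (-a) ^ q = -a ^ q := by
    have := h.neg_pow 1 a
    rwa [pow_one] at this
  rw [e1, h.neg_pow] at h1
  have h3 := ha.nrm
  apply h2
  linear_combination -h1 - h3

theorem Good.sq_ne (h : Fr E q) (h2 : (2 : E) ≠ 0) {a b : E} (ha : Good q a) (hb : Good q b)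
    (hab : a ≠ b) : a ^ 2 - b ^ 2 ≠ 0 := by
  intro h3
  have h4 : (a - b) * (a + b) = 0 := by linear_combination h3
  rcases mul_eq_zero.mp h4 with h5 | h5
  · exact hab (sub_eq_zero.mp h5)
  · have : b = -a := by linear_combination h5
    rw [this] at hb
    exact ha.neg_ne h h2 hb

/-- A step `h`-type vector to `k`-type vector. -/
theorem step_t (h : Fr E q) (h2 : (2 : E) ≠ 0) {a c z : E} (ha : Good q a) (hc : Good q c)
    (hac : a ≠ c) (hz : z ≠ 0) (hzc : z ^ q * (c ^ q * c) = z) :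
    a⁻¹ * z + a⁻¹ * a ^ q ^ 2 * z ^ q + a⁻¹ * (a ^ q)⁻¹ * z ^ q ^ 2 ≠ 0 := by
  have a0 := ha.ne
  have a1 : a ^ q ≠ 0 := pow_ne_zero _ a0
  have c0 := hc.ne
  have c1 : c ^ q ≠ 0 := pow_ne_zero _ c0
  have z1 : z ^ q = z * (c⁻¹ * (c ^ q)⁻¹) := by
    field_simp
    linear_combination hzc
  have z2 : z ^ q ^ 2 = z * (c ^ q)⁻¹ := by
    have e1 : (c⁻¹ * (c ^ q)⁻¹) ^ q = c := by
      rw [← hc.q2, ← pow_mul, ← pow_succ, h.per]
    rw [pow_two, pow_mul, z1, mul_pow, e1, z1]
    field_simp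
  rw [z1, z2, ha.q2]
  intro h0
  have h3 : (a ^ q * c ^ q) * (a * c) + a * c + 1 = 0 := by
    have h4 : z * ((a ^ q * c ^ q) * (a * c) + a * c + 1) = 0 := by
      field_simp at h0
      linear_combination h0
    exact (mul_eq_zero.mp h4).resolve_left hz
  have ea := ha.eq'
  have ec := hc.eq'
  have h5 : (a - c) ^ 2 = 0 := by
    have h6 : (a ^ q * c ^ q * (a * c)) ^ 2 = (a * c + 1) ^ 2 := by
      have : a ^ q * c ^ q * (a * c) = -(a * c + 1) := by linear_combination h3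
      rw [this]; ring
    have h7 : (a ^ q * c ^ q * (a * c)) ^ 2 = (a ^ 2 + 1) * (c ^ 2 + 1) := by
      linear_combination (c ^ q * c ^ q * c ^ 2) * ea - (a ^ 2 + 1) * ec
    linear_combination h6 - h7
  exact hac (sub_eq_zero.mp (pow_eq_zero_iff (by norm_num) |>.mp h5))

theorem ker_of_tm (h : Fr E q) {a : E} (ha : Good q a) (x : E) :
    let y := a⁻¹ * x + a⁻¹ * a ^ q ^ 2 * x ^ q + a⁻¹ * (a ^ q)⁻¹ * x ^ q ^ 2
    y ^ q = a ^ 2 * y := by
  intro y
  have h1 : ev (sm q a) *ᵥ (ev (tm q a) *ᵥ vc q x) = 0 := by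
    rw [Matrix.mulVec_mulVec, ← ev_mul, sm_tm_self h a ha]
    have : ev (((1 - X ^ 3 : E[X])) • (1 : Matrix (Fin 3) (Fin 3) E[X])) = 0 := by
      ext i j
      simp [ev]
    rw [this, Matrix.zero_mulVec]
  rw [tm_vc h, sm_vc h] at h1
  have h2 := congrFun h1 0
  simp only [vc, Fin.val_zero, pow_zero, pow_one, Pi.zero_apply] at h2
  have a0 := ha.ne
  change a * y - a⁻¹ * y ^ q = 0 at h2
  field_simp at h2
  linear_combination -h2

/-- A step from a `k`-type vector to an `h`-type vector. -/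
theorem step_s (h : Fr E q) (h2 : (2 : E) ≠ 0) {a b x : E} (ha : Good q a) (hb : Good q b)
    (hab : a ≠ b) (hx : x ≠ 0) (hxb : x ^ q = b ^ 2 * x) :
    a * x - a⁻¹ * x ^ q ≠ 0 ∧
      (a * x - a⁻¹ * x ^ q) ^ q * (a ^ q * a) = a * x - a⁻¹ * x ^ q := by
  have a0 := ha.ne
  have a1 : a ^ q ≠ 0 := pow_ne_zero _ a0
  have hd := ha.sq_ne h h2 hb hab
  have e0 : a * x - a⁻¹ * x ^ q = x * (a ^ 2 - b ^ 2) * a⁻¹ := by
    rw [hxb]
    field_simp
  rw [e0]
  refine ⟨mul_ne_zero (mul_ne_zero hx hd) (inv_ne_zero a0), ?_⟩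
  have e1 : (a ^ 2 - b ^ 2) ^ q = a ^ q * a ^ q - b ^ q * b ^ q := by
    have := h.sub_pow 1 (a ^ 2) (b ^ 2)
    rw [pow_one] at this
    rw [this, ← pow_mul, ← pow_mul, mul_comm 2 q, pow_mul, pow_mul, pow_two, pow_two]
  rw [mul_pow, mul_pow, e1, inv_pow, hxb]
  have ea := ha.eq'
  have eb := hb.eq'
  field_simp
  linear_combination (b ^ 2) * ea - (a ^ 2) * eb

/-- The word does not vanish at `X = 1`. -/
theorem ev_wp_ne (h : Fr E q) (h2 : (2 : E) ≠ 0) (a b : ℕ → E) (ha : ∀ i, Good q (a i))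
    (hb : ∀ i, Good q (b i)) (hab : ∀ i, a i ≠ b i) (hba : ∀ i, b i ≠ a (i + 1)) (n : ℕ)
    (c z : E) (hc : Good q c) (hcb : ∀ m, n = m + 1 → b m ≠ c) (hz : z ≠ 0)
    (hzc : z ^ q * (c ^ q * c) = z) : ev (wp q a b n) *ᵥ vc q z ≠ 0 := by
  induction n generalizing c z with
  | zero =>
    have : ev (wp q a b 0) = 1 := map_one _
    rw [this, Matrix.one_mulVec]
    exact vc_ne hz
  | succ n ih =>
    simp only [wp]
    rw [ev_mul, ev_mul, ← Matrix.mulVec_mulVec, ← Matrix.mulVec_mulVec, tm_vc h, sm_vc h]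
    have h3 := step_t h h2 (hb n) hc (hcb n rfl) hz hzc
    have h4 := ker_of_tm h (hb n) z
    obtain ⟨h5, h6⟩ := step_s h h2 (ha n) (hb n) (hab n) h3 h4
    exact ih (a n) _ (ha n) (fun m hm => by subst hm; exact hba m) h5 h6

end H41GT
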